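import Pool.Agent.U190.JT.Sep

/-!
# Goursat's theorem with the adjoint action

`𝔥` is a Lie algebra of families of matrices, with components in the Lie algebras of the forms. If the
component at `s₀` does not split off then the Lie algebra of some form is a quotient of a Lie algebra of
matrices of size `d s₀`, compatibly with the adjoint action of `𝔥`.
-/

set_option autoImplicit false
set_option linter.unusedSectionVars false

open Matrix
open Pool.Agent.Y142.ZO Pool.Agent.Y142.ZI Pool.Agent.Y142.ZS Pool.Agent.R932.PO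
open Pool.Agent.U190.JS

namespace Pool.Agent.U190.JT

variable {F : Type} [Field F] [CharZero F] {ι ι' : Type} [Fintype ι] [DecidableEq ι] [Fintype ι']
  [DecidableEq ι'] {N : ι → ℕ} {d : ι' → ℕ}
  {J : ∀ i, Matrix (Fin (N i)) (Fin (N i)) F} {𝔥 : Submodule F (Fam F N d)}

/-- the Lie algebra of the form `J i` is a quotient of a Lie algebra of matrices of size `d s₀`,
compatibly with the action of `𝔥` -/
def RelAd (J : ∀ i, Matrix (Fin (N i)) (Fin (N i)) F) (𝔥 : Submodule F (Fam F N d)) (i : ι)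
    (s₀ : ι') : Prop :=
  ∃ (𝔞 : Submodule F (Matrix (Fin (d s₀)) (Fin (d s₀)) F)) (Θ : 𝔞 →ₗ[F] spSub (J i)),
    Function.Surjective Θ ∧ (∀ X ∈ 𝔞, ∃ Z ∈ 𝔥, Z.2 s₀ = X) ∧
    ∀ W ∈ 𝔥, ∀ X : 𝔞, ∃ Z : 𝔞, Z.val = W.2 s₀ * X.val - X.val * W.2 s₀ ∧
      (Θ Z).val = W.1 i * (Θ X).val - (Θ X).val * W.1 i

theorem step_ad (hJ : ∀ i, IsForm (J i)) (hbr : ∀ Z ∈ 𝔥, ∀ W ∈ 𝔥, br Z W ∈ 𝔥)
    (hL : ∀ Z ∈ 𝔥, ∀ i, SpLie (J i) (Z.1 i)) {S : Finset ι'}
    (h : Lifts J 𝔥 S) {s₀ : ι'} (hs : ∀ i, ¬ RelAd J 𝔥 i s₀) : Lifts J 𝔥 (insert s₀ S) := by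
  refine step hJ hbr h fun i => ?_
  by_contra hcon
  push Not at hcon
  apply hs i
  let V := part J 𝔥 S i
  have hVb : ∀ Z ∈ 𝔥, ∀ W ∈ V, br Z W ∈ V := by
    rintro Z hZ W ⟨h1', h2', h3', h4'⟩
    refine ⟨hbr Z hZ W h1', br_sp (hL Z hZ i) h2', fun j hj => ?_, fun s hs => ?_⟩
    · show Z.1 j * W.1 j - W.1 j * Z.1 j = 0
      rw [h3' j hj, Matrix.zero_mul, Matrix.mul_zero, sub_zero]
    · show Z.2 s * W.2 s - W.2 s * Z.2 s = 0
      rw [h4' s hs, Matrix.zero_mul, Matrix.mul_zero, sub_zero]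
  let p : V →ₗ[F] spSub (J i) :=
    { toFun := fun Z => ⟨Z.1.1 i, Z.2.2.1⟩
      map_add' := fun Z W => rfl
      map_smul' := fun c Z => rfl }
  let q : V →ₗ[F] Matrix (Fin (d s₀)) (Fin (d s₀)) F :=
    { toFun := fun Z => Z.1.2 s₀
      map_add' := fun Z W => rfl
      map_smul' := fun c Z => rfl }
  have hk : LinearMap.ker q ≤ LinearMap.ker p := fun Z hZ => Subtype.ext (hcon Z.1 Z.2 hZ)
  let Θ : LinearMap.range q →ₗ[F] spSub (J i) :=
    ((LinearMap.ker q).liftQ p hk).comp q.quotKerEquivRange.symm.toLinearMap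
  have hΘ : ∀ Z : V, Θ ⟨q Z, LinearMap.mem_range_self q Z⟩ = p Z := by
    intro Z
    have h1 : q.quotKerEquivRange.symm ⟨q Z, LinearMap.mem_range_self q Z⟩ =
        (LinearMap.ker q).mkQ Z := by
      rw [LinearEquiv.symm_apply_eq]
      rfl
    show (LinearMap.ker q).liftQ p hk (q.quotKerEquivRange.symm ⟨q Z, _⟩) = p Z
    rw [h1]
    rfl
  refine ⟨LinearMap.range q, Θ, fun Y => ?_, ?_, ?_⟩
  · obtain ⟨Z, hZ, h1, h2, h3⟩ := h i Y.1 Y.2
    have hZV : Z ∈ V := ⟨hZ, by rw [h1]; exact Y.2, h2, h3⟩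
    exact ⟨⟨q ⟨Z, hZV⟩, LinearMap.mem_range_self q _⟩, (hΘ _).trans (Subtype.ext h1)⟩
  · rintro _ ⟨Z, rfl⟩
    exact ⟨Z.1, Z.2.1, rfl⟩
  · rintro W hW ⟨_, Z, rfl⟩
    refine ⟨⟨q ⟨br W Z.1, hVb _ hW _ Z.2⟩, LinearMap.mem_range_self q _⟩, rfl, ?_⟩
    rw [hΘ, hΘ]
    rfl

/-- **Unrelated and commutative parts split off.** -/
theorem splits_ad (hJ : ∀ i, IsForm (J i)) (hbr : ∀ Z ∈ 𝔥, ∀ W ∈ 𝔥, br Z W ∈ 𝔥)
    (hL : ∀ Z ∈ 𝔥, ∀ i, SpLie (J i) (Z.1 i)) (h0 : Lifts J 𝔥 ∅)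
    (hs : ∀ s, (∀ i, ¬ RelAd J 𝔥 i s) ∨ ∀ Z ∈ 𝔥, ∀ W ∈ 𝔥, Z.2 s * W.2 s = W.2 s * Z.2 s)
    {X : ∀ i, Matrix (Fin (N i)) (Fin (N i)) F} (hX : ∀ i, SpLie (J i) (X i)) :
    ((X, 0) : Fam F N d) ∈ 𝔥 := by
  have hall : ∀ S : Finset ι', Lifts J 𝔥 S := by
    intro S
    induction S using Finset.induction_on with
    | empty => exact h0
    | insert s S _ ih =>
      rcases hs s with h | h
      · exact step_ad hJ hbr hL ih h
      · exact step_comm hJ hbr ih h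
  have h1 : ∀ i, ((Pi.single i (X i), 0) : Fam F N d) ∈ 𝔥 := by
    intro i
    obtain ⟨Z, hZ, h2, h3, h4⟩ := hall Finset.univ i (X i) (hX i)
    have h5 : ((Pi.single i (X i), 0) : Fam F N d) = Z := by
      refine Prod.ext ?_ ?_
      · funext j
        by_cases hj : j = i
        · subst hj
          show (Pi.single j (X j) : ∀ i, Matrix (Fin (N i)) (Fin (N i)) F) j = Z.1 j
          rw [Pi.single_eq_same, h2]
        · show (Pi.single i (X i) : ∀ i, Matrix (Fin (N i)) (Fin (N i)) F) j = Z.1 j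
          rw [Pi.single_eq_of_ne hj, h3 j hj]
      · funext s
        exact (h4 s (Finset.mem_univ s)).symm
    rw [h5]
    exact hZ
  have h2 : ((X, 0) : Fam F N d) = ∑ i, ((Pi.single i (X i), 0) : Fam F N d) := by
    refine Prod.ext ?_ ?_
    · rw [Prod.fst_sum]
      funext j
      rw [Finset.sum_apply, Finset.sum_eq_single j]
      · show X j = (Pi.single j (X j) : ∀ i, Matrix (Fin (N i)) (Fin (N i)) F) j
        rw [Pi.single_eq_same]
      · intro i _ hi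
        show (Pi.single i (X i) : ∀ i, Matrix (Fin (N i)) (Fin (N i)) F) j = 0
        rw [Pi.single_eq_of_ne (Ne.symm hi)]
      · intro hj
        exact absurd (Finset.mem_univ j) hj
    · rw [Prod.snd_sum]
      exact (Finset.sum_eq_zero fun _ _ => rfl).symm
  rw [h2]
  exact 𝔥.sum_mem fun i _ => h1 i

/-- the characteristic polynomial of the adjoint operator on the Lie algebra of the form divides the one
on the algebra of the matrices -/
def FitAd {M n : ℕ} (J : Matrix (Fin M) (Fin M) F) (h : Matrix (Fin M) (Fin M) F)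
    (hA : Matrix (Fin n) (Fin n) F) : Prop :=
  ∀ (f : Module.End F (spSub J)) (g : Module.End F (Matrix (Fin n) (Fin n) F)),
    (∀ X, (f X).val = h * X.val - X.val * h) → (∀ Y, g Y = hA * Y - Y * hA) →
    LinearMap.charpoly f ∣ LinearMap.charpoly g

theorem fit_of_rel {i : ι} {s₀ : ι'} (h : RelAd J 𝔥 i s₀) {W : Fam F N d} (hW : W ∈ 𝔥) :
    FitAd (J i) (W.1 i) (W.2 s₀) := by
  intro f g hf hg
  obtain ⟨𝔞, Θ, h1, -, h4⟩ := h
  have h5 : ∀ X ∈ 𝔞, g X ∈ 𝔞 := by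
    intro X hX
    obtain ⟨Z, hZ, -⟩ := h4 W hW ⟨X, hX⟩
    rw [hg, ← hZ]
    exact Z.2
  refine dvd_of_corr Θ h1 𝔞.subtype ?_ (g.restrict h5) f g (fun X => ?_) fun X => rfl
  · rw [Submodule.ker_subtype]
    exact bot_le
  · obtain ⟨Z, hZ, hZ'⟩ := h4 W hW X
    have h6 : (g.restrict h5) X = Z := by
      apply Subtype.ext
      rw [hZ]
      exact hg X.1
    rw [h6]
    apply Subtype.ext
    rw [hZ', hf]

end Pool.Agent.U190.JT
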