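import Mathlib

/-!
# Characteristic polynomials on quotients of stable subspaces
-/

set_option autoImplicit false

open Polynomial

namespace Pool.Agent.U190.JT

variable {F : Type} [Field F] {V L E : Type} [AddCommGroup V] [Module F V] [Module.Finite F V]
  [AddCommGroup L] [Module F L] [Module.Finite F L] [AddCommGroup E] [Module F E]
  [Module.Finite F E]

theorem charpoly_mul [Infinite F] (W : Submodule F V) (f : Module.End F V) (h : W ≤ W.comap f) :
    LinearMap.charpoly f = LinearMap.charpoly (f.restrict h) * LinearMap.charpoly (W.mapQ W f h) := by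
  refine Polynomial.funext fun t => ?_
  have h1 : W ≤ W.comap (algebraMap F (Module.End F V) t - f) := fun x hx => by
    rw [Submodule.mem_comap, LinearMap.sub_apply, Module.algebraMap_end_apply]
    exact W.sub_mem (W.smul_mem t hx) (h hx)
  rw [Polynomial.eval_mul, LinearMap.eval_charpoly, LinearMap.eval_charpoly,
    LinearMap.eval_charpoly, LinearMap.det_eq_det_mul_det W _ h1]
  congr 2
  · apply LinearMap.ext
    intro x
    obtain ⟨x, rfl⟩ := W.mkQ_surjective x
    rfl

/-- surjective intertwining maps -/
theorem dvd_of_surj [Infinite F] (p : V →ₗ[F] L) (hp : Function.Surjective p) (f : Module.End F V)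
    (g : Module.End F L) (h : ∀ x, p (f x) = g (p x)) :
    LinearMap.charpoly g ∣ LinearMap.charpoly f := by
  have hk : LinearMap.ker p ≤ (LinearMap.ker p).comap f := fun x hx => by
    rw [Submodule.mem_comap, LinearMap.mem_ker, h, LinearMap.mem_ker.1 hx, map_zero]
  have h1 := charpoly_mul (LinearMap.ker p) f hk
  let e := p.quotKerEquivOfSurjective hp
  have h2 : e.conj ((LinearMap.ker p).mapQ (LinearMap.ker p) f hk) = g := by
    apply LinearMap.ext
    intro y
    obtain ⟨x, rfl⟩ := hp y
    rw [LinearEquiv.conj_apply_apply]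
    have h3 : e.symm (p x) = (LinearMap.ker p).mkQ x := by
      rw [LinearEquiv.symm_apply_eq]
      rfl
    rw [h3, Submodule.mkQ_apply, Submodule.mapQ_apply]
    exact h x
  rw [h1, ← h2, LinearEquiv.charpoly_conj]
  exact Dvd.intro_left _ rfl

/-- injective intertwining maps -/
theorem dvd_of_inj [Infinite F] (q : V →ₗ[F] E) (hq : Function.Injective q) (f : Module.End F V)
    (g : Module.End F E) (h : ∀ x, q (f x) = g (q x)) :
    LinearMap.charpoly f ∣ LinearMap.charpoly g := by
  have hk : LinearMap.range q ≤ (LinearMap.range q).comap g := by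
    rintro _ ⟨x, rfl⟩
    exact ⟨f x, h x⟩
  have h1 := charpoly_mul (LinearMap.range q) g hk
  let e := LinearEquiv.ofInjective q hq
  have h2 : e.conj f = g.restrict hk := by
    apply LinearMap.ext
    intro y
    obtain ⟨x, rfl⟩ := e.surjective y
    rw [LinearEquiv.conj_apply_apply, LinearEquiv.symm_apply_apply]
    apply Subtype.ext
    exact h x
  rw [h1, ← h2, LinearEquiv.charpoly_conj]
  exact Dvd.intro _ rfl

/-- **correspondences**: if the kernel of `q : V → E` is contained in the kernel of the surjective map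
`p : V → L` then the characteristic polynomial on `L` divides the one on `E` -/
theorem dvd_of_corr [Infinite F] (p : V →ₗ[F] L) (hp : Function.Surjective p) (q : V →ₗ[F] E)
    (hk : LinearMap.ker q ≤ LinearMap.ker p) (f : Module.End F V) (g : Module.End F L)
    (e : Module.End F E) (hpf : ∀ x, p (f x) = g (p x)) (hqf : ∀ x, q (f x) = e (q x)) :
    LinearMap.charpoly g ∣ LinearMap.charpoly e := by
  have hk' : LinearMap.ker q ≤ (LinearMap.ker q).comap f := fun x hx => by
    rw [Submodule.mem_comap, LinearMap.mem_ker, hqf, LinearMap.mem_ker.1 hx, map_zero]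
  let f' : Module.End F (V ⧸ LinearMap.ker q) := (LinearMap.ker q).mapQ (LinearMap.ker q) f hk'
  let p' : (V ⧸ LinearMap.ker q) →ₗ[F] L := (LinearMap.ker q).liftQ p hk
  let q' : (V ⧸ LinearMap.ker q) →ₗ[F] E := (LinearMap.ker q).liftQ q le_rfl
  have h1 : LinearMap.charpoly g ∣ LinearMap.charpoly f' := by
    refine dvd_of_surj p' (fun y => ?_) f' g fun x => ?_
    · obtain ⟨x, rfl⟩ := hp y
      exact ⟨(LinearMap.ker q).mkQ x, rfl⟩
    · obtain ⟨x, rfl⟩ := (LinearMap.ker q).mkQ_surjective x
      exact hpf x
  have h2 : LinearMap.charpoly f' ∣ LinearMap.charpoly e := by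
    refine dvd_of_inj q' ?_ f' e fun x => ?_
    · rw [← LinearMap.ker_eq_bot]
      exact Submodule.ker_liftQ_eq_bot _ _ _ le_rfl
    · obtain ⟨x, rfl⟩ := (LinearMap.ker q).mkQ_surjective x
      exact hqf x
  exact h1.trans h2

end Pool.Agent.U190.JT
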