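import Pool.Agent.U190.JT.Mt

/-!
# Small families do not fit
-/

set_option autoImplicit false
set_option linter.unusedSectionVars false

open Matrix Polynomial
open Pool.Agent.Y142.ZO Pool.Agent.Y142.ZI Pool.Agent.Y142.ZS Pool.Agent.R932.PO Pool.Agent.U190.JS
open Pool.Agent.U190.MT

namespace Pool.Agent.U190.JT

/-- small dimensions over any field of characteristic zero -/
theorem small_rankF {F : Type} [Field F] [CharZero F] [Algebra ℚ F] {N : ℕ}
    {J : Matrix (Fin N) (Fin N) ℚ} (hJ : Jᵀ = J ∨ Jᵀ = -J) (hd : J.det ≠ 0)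
    {n : ℕ} (h : Small J n) : n ^ 2 < Module.finrank F (spSub (J.map (algebraMap ℚ F))) := by
  have hd' : (J.map (algebraMap ℚ F)).det ≠ 0 := det_map_ne (algebraMap ℚ F) hd
  have h1 : Even (N * (N - 1)) := Nat.even_mul_pred_self N
  have h2 : Even (N * (N + 1)) := Nat.even_mul_succ_self N
  obtain ⟨c, hc⟩ := h1
  obtain ⟨e, he⟩ := h2
  have h3 : N * (N - 1) ≤ N * (N + 1) := Nat.mul_le_mul_left N (by omega)
  by_cases halt : Jᵀ = -J
  · have h4 := dim_lower' hd' (J := J.map (algebraMap ℚ F)) (by
      rw [← transpose_map, halt]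
      ext p q
      simp)
    have h5 : 2 * n ^ 2 < N * (N + 1) := by
      rcases h with h | h
      · omega
      · exact h.2
    omega
  · have h4 := dim_lower hd' (J := J.map (algebraMap ℚ F)) (by
      rw [← transpose_map, hJ.resolve_right halt])
    have h5 : 2 * n ^ 2 < N * (N - 1) := by
      rcases h with h | h
      · exact h
      · exact absurd h.1 halt
    omega

theorem fit_le {F : Type} [Field F] [CharZero F] {M n : ℕ} {J h : Matrix (Fin M) (Fin M) F}
    {hA : Matrix (Fin n) (Fin n) F} {c : F}
    (hh : SpLie J (h - c • (1 : Matrix (Fin M) (Fin M) F))) (hf : FitAd J h hA) :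
    Module.finrank F (spSub J) ≤ n ^ 2 := by
  have hb : ∀ X, SpLie J X → SpLie J (h * X - X * h) := by
    intro X hX
    have h1 := br_sp hh hX
    rw [sub_mul, mul_sub, smul_mul_assoc, one_mul, mul_smul_comm, mul_one] at h1
    have h2 : h * X - c • X - (X * h - c • X) = h * X - X * h := by abel
    rwa [h2] at h1
  let f : Module.End F (spSub J) :=
    { toFun := fun X => ⟨h * X.1 - X.1 * h, hb X.1 X.2⟩
      map_add' := by
        intro X Y
        apply Subtype.ext
        show h * (X.1 + Y.1) - (X.1 + Y.1) * h = h * X.1 - X.1 * h + (h * Y.1 - Y.1 * h)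
        rw [mul_add, add_mul]
        abel
      map_smul' := by
        intro c X
        apply Subtype.ext
        show h * (c • X.1) - (c • X.1) * h = c • (h * X.1 - X.1 * h)
        rw [mul_smul_comm, smul_mul_assoc, smul_sub] }
  let g : Module.End F (Matrix (Fin n) (Fin n) F) :=
    { toFun := fun X => hA * X - X * hA
      map_add' := by
        intro X Y
        rw [mul_add, add_mul]
        abel
      map_smul' := by
        intro c X
        rw [mul_smul_comm, smul_mul_assoc, ← smul_sub]
        rfl }
  have hdvd := hf f g (fun X => rfl) fun Y => rfl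
  have h1 := Polynomial.natDegree_le_of_dvd hdvd (LinearMap.charpoly_monic _).ne_zero
  rwa [LinearMap.charpoly_natDegree, LinearMap.charpoly_natDegree, Module.finrank_matrix,
    Fintype.card_fin, Module.finrank_self, mul_one, ← sq] at h1

end Pool.Agent.U190.JT
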