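import Pool.Agent.U190.JT.Ad
import Pool.Agent.U190.MT.Equiv

/-!
# The rational Lie algebra of a generic family and a family with other Hodge numbers
-/

set_option autoImplicit false
set_option linter.unusedSectionVars false

open Matrix
open Pool.Agent.Y142.ZO Pool.Agent.Y142.ZI Pool.Agent.Y142.ZS Pool.Agent.R932.PO Pool.Agent.U190.JS
open Pool.Agent.U190.MT

namespace Pool.Agent.U190.JT

section ext
variable {k₀ K : Type} [Field k₀] [Field K] [Algebra k₀ K] {X : Type} {n : X → ℕ}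

/-- the commutator as a linear map in the second variable -/
def comL (Z : Space K n) : Space K n →ₗ[K] Space K n where
  toFun W := com Z W
  map_add' W W' := by
    refine Prod.ext ?_ (add_zero 0).symm
    funext x
    show Z.1 x * (W.1 x + W'.1 x) - (W.1 x + W'.1 x) * Z.1 x =
      Z.1 x * W.1 x - W.1 x * Z.1 x + (Z.1 x * W'.1 x - W'.1 x * Z.1 x)
    rw [mul_add, add_mul]
    abel
  map_smul' c W := by
    refine Prod.ext ?_ (mul_zero c).symm
    funext x
    show Z.1 x * (c • W.1 x) - (c • W.1 x) * Z.1 x = c • (Z.1 x * W.1 x - W.1 x * Z.1 x)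
    rw [mul_smul_comm, smul_mul_assoc, smul_sub]

/-- the commutator as a linear map in the first variable -/
def comR (W : Space K n) : Space K n →ₗ[K] Space K n where
  toFun Z := com Z W
  map_add' Z Z' := by
    refine Prod.ext ?_ (add_zero 0).symm
    funext x
    show (Z.1 x + Z'.1 x) * W.1 x - W.1 x * (Z.1 x + Z'.1 x) =
      Z.1 x * W.1 x - W.1 x * Z.1 x + (Z'.1 x * W.1 x - W.1 x * Z'.1 x)
    rw [mul_add, add_mul]
    abel
  map_smul' c Z := by
    refine Prod.ext ?_ (mul_zero c).symm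
    funext x
    show (c • Z.1 x) * W.1 x - W.1 x * (c • Z.1 x) = c • (Z.1 x * W.1 x - W.1 x * Z.1 x)
    rw [mul_smul_comm, smul_mul_assoc, smul_sub]

theorem com_map (Y Y' : Space k₀ n) : com (mapS (algebraMap k₀ K) Y) (mapS (algebraMap k₀ K) Y') =
    mapS (algebraMap k₀ K) (com Y Y') := by
  refine Prod.ext ?_ (map_zero _).symm
  funext x
  show (Y.1 x).map (algebraMap k₀ K) * (Y'.1 x).map (algebraMap k₀ K) -
    (Y'.1 x).map (algebraMap k₀ K) * (Y.1 x).map (algebraMap k₀ K) =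
    (Y.1 x * Y'.1 x - Y'.1 x * Y.1 x).map (algebraMap k₀ K)
  rw [← Matrix.map_mul, ← Matrix.map_mul]
  ext p q
  exact (map_sub (algebraMap k₀ K) _ _).symm

/-- the extension of scalars of a Lie algebra is a Lie algebra -/
theorem ext_com {𝔞 : Submodule k₀ (Space k₀ n)} (h : ∀ Z ∈ 𝔞, ∀ W ∈ 𝔞, com Z W ∈ 𝔞) :
    ∀ Z ∈ extS K 𝔞, ∀ W ∈ extS K 𝔞, com Z W ∈ extS K 𝔞 := by
  have h1 : ∀ Y' ∈ 𝔞, extS K 𝔞 ≤ (extS K 𝔞).comap (comR (mapS (algebraMap k₀ K) Y')) := by
    intro Y' hY'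
    refine Submodule.span_le.2 ?_
    rintro _ ⟨Y, hY, rfl⟩
    exact Submodule.subset_span ⟨com Y Y', h Y hY Y' hY', com_map Y Y'⟩
  intro Z hZ
  have h2 : extS K 𝔞 ≤ (extS K 𝔞).comap (comL Z) := by
    refine Submodule.span_le.2 ?_
    rintro _ ⟨Y', hY', rfl⟩
    exact h1 Y' hY' hZ
  exact fun W hW => h2 hW

/-- commuting components -/
theorem ext_commute {𝔞 : Submodule k₀ (Space k₀ n)} {x : X}
    (h : ∀ Z ∈ 𝔞, ∀ W ∈ 𝔞, Z.1 x * W.1 x = W.1 x * Z.1 x) :
    ∀ Z ∈ extS K 𝔞, ∀ W ∈ extS K 𝔞, Z.1 x * W.1 x = W.1 x * Z.1 x := by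
  have h1 : ∀ Y' ∈ 𝔞, ∀ Z ∈ extS K 𝔞, (com Z (mapS (algebraMap k₀ K) Y')).1 x = 0 := by
    intro Y' hY' Z hZ
    have h2 : extS K 𝔞 ≤ LinearMap.ker
        ((LinearMap.proj x).comp ((LinearMap.fst K _ _).comp (comR (mapS (algebraMap k₀ K) Y')))) := by
      refine Submodule.span_le.2 ?_
      rintro _ ⟨Y, hY, rfl⟩
      show (com (mapS (algebraMap k₀ K) Y) (mapS (algebraMap k₀ K) Y')).1 x = 0
      rw [com_map]
      show (Y.1 x * Y'.1 x - Y'.1 x * Y.1 x).map (algebraMap k₀ K) = 0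
      rw [h Y hY Y' hY', sub_self]
      ext p q
      exact map_zero (algebraMap k₀ K)
    exact h2 hZ
  intro Z hZ W hW
  have h3 : extS K 𝔞 ≤ LinearMap.ker
      ((LinearMap.proj x).comp ((LinearMap.fst K _ _).comp (comL Z))) := by
    refine Submodule.span_le.2 ?_
    rintro _ ⟨Y', hY', rfl⟩
    exact h1 Y' hY' Z hZ
  have h4 : (com Z W).1 x = 0 := h3 hW
  exact sub_eq_zero.1 h4

end ext

section
variable {k₀ K : Type} [Field k₀] [CharZero k₀] [Field K] [Algebra k₀ K] {ι ι' : Type} [Fintype ι]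
  [DecidableEq ι] [Fintype ι'] [DecidableEq ι'] {N w : ι → ℕ} {d : ι' → ℕ}
  {J : ∀ i, Matrix (Fin (N i)) (Fin (N i)) k₀}

/-- families of matrices over the larger field -/
def mapF (Z : Fam k₀ N (dO d)) : Fam K N (dO d) :=
  (fun i => (Z.1 i).map (algebraMap k₀ K), fun x => (Z.2 x).map (algebraMap k₀ K))

theorem psi_map (Z : Fam k₀ N (dO d)) : Psi w N d (mapF (K := K) Z) =
    mapS (algebraMap k₀ K) (Psi w N d Z) := by
  refine Prod.ext ?_ rfl
  funext x
  cases x with
  | inl i =>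
    show (Z.1 i).map (algebraMap k₀ K) + ((w i : K) / 2 * algebraMap k₀ K (nO Z)) •
        (1 : Matrix (Fin (N i)) (Fin (N i)) K) =
      (Z.1 i + ((w i : k₀) / 2 * nO Z) • (1 : Matrix (Fin (N i)) (Fin (N i)) k₀)).map (algebraMap k₀ K)
    ext p q
    rw [Matrix.add_apply, Matrix.smul_apply, Matrix.map_apply, Matrix.map_apply, Matrix.add_apply,
      Matrix.smul_apply, map_add, smul_eq_mul, smul_eq_mul, map_mul, map_mul, map_div₀, map_natCast,
      map_ofNat]
    congr 2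
    by_cases hpq : p = q
    · subst hpq
      rw [Matrix.one_apply_eq, Matrix.one_apply_eq, map_one]
    · rw [Matrix.one_apply_ne hpq, Matrix.one_apply_ne hpq, map_zero]
  | inr s => rfl

theorem fit_shift {M n : ℕ} {J h : Matrix (Fin M) (Fin M) K} {hA : Matrix (Fin n) (Fin n) K} {c : K}
    (hf : FitAd J (h - c • (1 : Matrix (Fin M) (Fin M) K)) hA) : FitAd J h hA := by
  intro f g h1 h2
  refine hf f g (fun X => ?_) h2
  rw [h1, sub_mul, mul_sub, smul_mul_assoc, one_mul, mul_smul_comm, mul_one]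
  abel

/-- **The rational Lie algebra of the joint system is as large as possible.** -/
theorem hull_eq_big' {h : ∀ i, Matrix (Fin (N i)) (Fin (N i)) K}
    {hA : ∀ s, Matrix (Fin (d s)) (Fin (d s)) K}
    (hJ : ∀ i, IsForm ((J i).map (algebraMap k₀ K))) (hg : GenericW J w h)
    (hs : ∀ s, (∀ i, ¬ FitAd ((J i).map (algebraMap k₀ K)) (h i) (hA s)) ∨
      ∀ Z ∈ hull k₀ ((hA, (1 : K)) : Space K d), ∀ W ∈ hull k₀ ((hA, (1 : K)) : Space K d),
        Z.1 s * W.1 s = W.1 s * Z.1 s) :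
    hull k₀ ((joinM h hA, (1 : K)) : Space K (Sum.elim N d)) =
      Big J w (hull k₀ ((hA, (1 : K)) : Space K d)) := by
  have : CharZero K := charZero_of_injective_algebraMap (algebraMap k₀ K).injective
  refine le_antisymm (hull_le_big hg.1) ?_
  have hle := hull_le_big (hA := hA) hg.1
  set 𝔥 := hull k₀ ((joinM h hA, (1 : K)) : Space K (Sum.elim N d)) with h𝔥
  -- the rational families
  let 𝔯 : Submodule k₀ (Fam k₀ N (dO d)) := 𝔥.comap (Psi w N d)
  have hbr₀ : ∀ Z ∈ 𝔯, ∀ W ∈ 𝔯, br Z W ∈ 𝔯 := by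
    intro Z hZ W hW
    show Psi w N d (br Z W) ∈ 𝔥
    rw [psi_br]
    exact hull_com _ hZ _ hW
  have hcoord : ∀ f : K →ₗ[k₀] k₀, ((fun i => (cen w h i).map f, fun x => match x with
      | none => Matrix.of fun _ _ => f 1
      | some s => (hA s).map f) : Fam k₀ N (dO d)) ∈ 𝔯 := by
    intro f
    show Psi w N d _ ∈ 𝔥
    have h1 : Psi w N d ((fun i => (cen w h i).map f, fun x => match x with
        | none => Matrix.of fun _ _ => f 1
        | some s => (hA s).map f) : Fam k₀ N (dO d)) =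
        mapS f ((joinM h hA, (1 : K)) : Space K (Sum.elim N d)) := by
      refine Prod.ext ?_ rfl
      funext x
      cases x with
      | inl i =>
        have h2 := cen_map (w := w) (h := h) (hA := hA) (d := d) f i
        show (cen w h i).map f + ((w i : k₀) / 2 * f 1) • (1 : Matrix (Fin (N i)) (Fin (N i)) k₀) =
          (h i).map f
        rw [← h2]
        have h3 : cenL w N d i (mapS f ((joinM h hA, (1 : K)) : Space K (Sum.elim N d))) =
          (h i).map f - ((w i : k₀) / 2 * f 1) • (1 : Matrix (Fin (N i)) (Fin (N i)) k₀) := rfl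
        rw [h3, sub_add_cancel]
      | inr s => rfl
    rw [h1]
    exact hull_coord f
  have hrat : ∀ X : ∀ i, Matrix (Fin (N i)) (Fin (N i)) k₀, (∀ i, SpLie (J i) (X i)) →
      ∃ Z ∈ 𝔯, Z.1 = X := by
    intro X hX
    have h2 := hg.2 (𝔯.map (LinearMap.fst k₀ _ _)) ?_ (fam_ext fun f => ⟨_, hcoord f, rfl⟩) _ hX
    · exact h2
    · rintro _ ⟨Z, hZ, rfl⟩ _ ⟨W, hW, rfl⟩
      exact ⟨br Z W, hbr₀ Z hZ W hW, rfl⟩
  -- the Lie algebra over the larger field
  let 𝔥K : Submodule K (Space K (Sum.elim N d)) := extS K 𝔥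
  let 𝔥' : Submodule K (Fam K N (dO d)) := 𝔥K.comap (Psi w N d)
  have hcomK : ∀ Z ∈ 𝔥K, ∀ W ∈ 𝔥K, com Z W ∈ 𝔥K := ext_com hull_com
  have hbr : ∀ Z ∈ 𝔥', ∀ W ∈ 𝔥', br Z W ∈ 𝔥' := by
    intro Z hZ W hW
    show Psi w N d (br Z W) ∈ 𝔥K
    rw [psi_br]
    exact hcomK _ hZ _ hW
  have hup : 𝔥K ≤ extS K (Big J w (hull k₀ ((hA, (1 : K)) : Space K d))) := by
    intro Z hZ
    have h1 : ∀ f : K →ₗ[k₀] k₀, mapS f Z ∈ 𝔥 := mem_ext.1 hZ
    exact mem_ext.2 fun f => hle (h1 f)
  have hL : ∀ Z ∈ 𝔥', ∀ i, SpLie ((J i).map (algebraMap k₀ K)) (Z.1 i) := by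
    intro Z hZ i
    have h1 := (ext_big.1 (hup hZ)).1 i
    rwa [psi_cen] at h1
  let W₀ : Fam K N (dO d) := (cen w h, fun x => match x with
    | none => (Matrix.of fun _ _ => (1 : K) : Matrix (Fin 1) (Fin 1) K)
    | some s => hA s)
  have hW₀ : W₀ ∈ 𝔥' := by
    show Psi w N d W₀ ∈ 𝔥K
    have h1 : Psi w N d W₀ = ((joinM h hA, (1 : K)) : Space K (Sum.elim N d)) := by
      refine Prod.ext ?_ rfl
      funext x
      cases x with
      | inl i =>
        show (h i - ((w i : K) / 2) • (1 : Matrix (Fin (N i)) (Fin (N i)) K)) + ((w i : K) / 2 * 1) •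
          (1 : Matrix (Fin (N i)) (Fin (N i)) K) = h i
        rw [mul_one, sub_add_cancel]
      | inr s => rfl
    rw [h1]
    exact ext_of_coord fun f => hull_coord f
  have h0 : Lifts (fun i => (J i).map (algebraMap k₀ K)) 𝔥' ∅ := by
    intro i X hX
    have h1 : ∀ j, SpLie ((J j).map (algebraMap k₀ K))
        ((Pi.single i X : ∀ i, Matrix (Fin (N i)) (Fin (N i)) K) j) := by
      intro j
      by_cases hj : j = i
      · subst hj
        rw [Pi.single_eq_same]
        exact hX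
      · rw [Pi.single_eq_of_ne hj]
        exact (spSub ((J j).map (algebraMap k₀ K))).zero_mem
    have h2 : (Pi.single i X : ∀ i, Matrix (Fin (N i)) (Fin (N i)) K) ∈
        𝔥'.map (LinearMap.fst K _ _) := by
      have h3 := fam_ext (𝔞 := Submodule.pi Set.univ fun i => spSub (J i))
        (h := (Pi.single i X : ∀ i, Matrix (Fin (N i)) (Fin (N i)) K)) (fun f => by
          rw [Submodule.mem_pi]
          intro j _
          exact spLie_coord f (h1 j))
      refine (Submodule.span_le.2 ?_) h3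
      rintro _ ⟨Y, hY, rfl⟩
      obtain ⟨Z, hZ, hZY⟩ := hrat Y fun j => (Submodule.mem_pi.1 hY) j trivial
      refine ⟨mapF Z, ?_, ?_⟩
      · show Psi w N d (mapF Z) ∈ 𝔥K
        rw [psi_map]
        exact Submodule.subset_span ⟨_, hZ, rfl⟩
      · show (fun i => (Z.1 i).map (algebraMap k₀ K)) = _
        rw [hZY]
    obtain ⟨Z, hZ, hZX⟩ := h2
    have hZX' : Z.1 = Pi.single i X := hZX
    refine ⟨Z, hZ, ?_, fun j hj => ?_, fun s hs => absurd hs (Finset.notMem_empty s)⟩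
    · rw [hZX', Pi.single_eq_same]
    · rw [hZX', Pi.single_eq_of_ne hj]
  have hspK : ∀ X, (∀ i, SpLie ((J i).map (algebraMap k₀ K)) (X i)) →
      ((X, 0) : Fam K N (dO d)) ∈ 𝔥' := by
    intro X hX
    refine splits_ad hJ hbr hL h0 (fun x => ?_) hX
    cases x with
    | none =>
      right
      intro Z _ W _
      exact one_comm _ _
    | some s =>
      rcases hs s with h1 | h1
      · left
        intro i hrel
        exact h1 i (fit_shift (fit_of_rel hrel hW₀))
      · right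
        intro Z hZ W hW
        exact ext_commute h1 _ (ext_big.1 (hup hZ)).2 _ (ext_big.1 (hup hW)).2
  obtain ⟨f₁, hf₁⟩ := LinearMap.exists_leftInverse_of_injective (Algebra.linearMap k₀ K)
    (LinearMap.ker_eq_bot.2 (algebraMap k₀ K).injective)
  have hf₁' : ∀ c : k₀, f₁ (algebraMap k₀ K c) = c := fun c => LinearMap.congr_fun hf₁ c
  have hsp : ∀ X, (∀ i, SpLie (J i) (X i)) → ((X, 0) : Fam k₀ N (dO d)) ∈ 𝔯 := by
    intro X hX
    have h1 := hspK (fun i => (X i).map (algebraMap k₀ K)) fun i => by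
      rw [spLie_iff]
      intro f
      have h2 : ((X i).map (algebraMap k₀ K)).map f = f 1 • X i := by
        ext p q
        show f (algebraMap k₀ K (X i p q)) = f 1 * X i p q
        rw [Algebra.algebraMap_eq_smul_one, map_smul, smul_eq_mul, mul_comm]
      rw [h2]
      exact (spSub (J i)).smul_mem _ (hX i)
    have h2 : Psi w N d ((fun i => (X i).map (algebraMap k₀ K), 0) : Fam K N (dO d)) ∈ 𝔥K := h1
    have h3 : ((fun i => (X i).map (algebraMap k₀ K), 0) : Fam K N (dO d)) =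
        mapF ((X, 0) : Fam k₀ N (dO d)) := by
      refine Prod.ext rfl ?_
      funext x
      ext p q
      exact (map_zero (algebraMap k₀ K)).symm
    rw [h3, psi_map] at h2
    have h4 := mem_ext.1 h2 f₁
    have h5 : mapS f₁ (mapS (algebraMap k₀ K) (Psi w N d ((X, 0) : Fam k₀ N (dO d)))) =
        Psi w N d ((X, 0) : Fam k₀ N (dO d)) := by
      refine Prod.ext ?_ (hf₁' _)
      funext x
      ext p q
      exact hf₁' _
    rw [h5] at h4
    exact h4
  intro Z hZ
  rw [mem_big] at hZ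
  obtain ⟨Z', hZ', hpr⟩ := (hull_proj (z := ((joinM h hA, (1 : K)) : Space K (Sum.elim N d)))).1 hZ.2
  have hZ'' := ((mem_big (J := J) (w := w)).1 (hle hZ')).1
  have h1 : ((fun i => cenL w N d i Z - cenL w N d i Z', 0) : Fam k₀ N (dO d)) ∈ 𝔯 := by
    refine hsp _ fun i => ?_
    exact (spSub (J i)).sub_mem (hZ.1 i) (hZ'' i)
  have h2 : Psi w N d ((fun i => cenL w N d i Z - cenL w N d i Z', 0) : Fam k₀ N (dO d)) ∈ 𝔥 := h1
  have h3 : Z = Psi w N d ((fun i => cenL w N d i Z - cenL w N d i Z', 0) : Fam k₀ N (dO d)) + Z' := by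
    have hp1 : ∀ s, (prS k₀ N d Z').1 s = (prS k₀ N d Z).1 s := fun s => by rw [hpr]
    have hp2 : Z'.2 = Z.2 := by
      have h4 : (prS k₀ N d Z').2 = (prS k₀ N d Z).2 := by rw [hpr]
      exact h4
    refine Prod.ext ?_ ?_
    · funext x
      cases x with
      | inl i =>
        show pL Z i = (pL Z i - ((w i : k₀) / 2 * Z.2) •
          (1 : Matrix (Fin (N i)) (Fin (N i)) k₀) - (pL Z' i - ((w i : k₀) / 2 * Z'.2) •
          (1 : Matrix (Fin (N i)) (Fin (N i)) k₀)) + ((w i : k₀) / 2 * 0) •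
          (1 : Matrix (Fin (N i)) (Fin (N i)) k₀)) + pL Z' i
        rw [hp2, mul_zero, zero_smul, add_zero]
        abel
      | inr s =>
        show (prS k₀ N d Z).1 s = 0 + (prS k₀ N d Z').1 s
        rw [hp1, zero_add]
    · show Z.2 = 0 + Z'.2
      rw [hp2, zero_add]
  rw [h3]
  exact 𝔥.add_mem h2 hZ'

end

end Pool.Agent.U190.JT
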