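import Pool.Agent.U190.JT.Hodge
import Pool.Agent.U190.MT.Top

/-!
# The Mumford-Tate conjecture for sums with arbitrary unrelated motives
-/

set_option autoImplicit false
set_option linter.unusedSectionVars false
set_option linter.style.haveILetI false

open Matrix Polynomial Filter Topology NumberField IsDedekindDomain
open Pool.Agent.Y142.ZO Pool.Agent.Y142.ZI Pool.Agent.Y142.ZS
open Pool.Agent.R932.OP Pool.Agent.R932.EV Pool.Agent.R932.PO Pool.Agent.U190.JS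
open Pool.Agent.U190.MT

namespace Pool.Agent.U190.JT

section joint
variable {ℓ : ℕ} [hℓ : Fact ℓ.Prime] {ι ι' : Type} [Fintype ι] [DecidableEq ι] [Fintype ι']
  [DecidableEq ι'] {N w : ι → ℕ} {d : ι' → ℕ}
  {G : Type} [Group G] [TopologicalSpace G] [IsTopologicalGroup G] [CompactSpace G]
  {ρ : ∀ i, G →* Matrix (Fin (N i)) (Fin (N i)) ℚ_[ℓ]}
  {α : ∀ s, G →* Matrix (Fin (d s)) (Fin (d s)) ℚ_[ℓ]} {κ : G →* ℚ_[ℓ]}

/-- **The `ℓ`-adic Lie algebra of the joint system is as large as possible.** -/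
theorem tan_iff' {J : ∀ i, Matrix (Fin (N i)) (Fin (N i)) ℚ_[ℓ]} (hJ : ∀ i, IsForm (J i))
    (hρ : ∀ i, Continuous (ρ i)) (hα : ∀ s, Continuous (α s)) (hκ : Continuous κ)
    (hmult : ∀ i g, Sim (J i) (ρ i g) (κ g ^ w i))
    (hfull : ∀ X, (∀ i, SpLie (J i) (X i)) → JTan ℓ ρ X) (hweak : ∀ s, Weak' J ρ (α s))
    (Z : Space ℚ_[ℓ] (Sum.elim N d)) :
    TanS (joinR ρ α) κ Z ↔
      (∀ i, SpLie (J i) (cenL w N d i Z)) ∧ TanS α κ (prS ℚ_[ℓ] N d Z) := by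
  have hfirst : ∀ Z : Space ℚ_[ℓ] (Sum.elim N d), TanS (joinR ρ α) κ Z →
      ∀ i, SpLie (J i) (cenL w N d i Z) := by
    rintro Z ⟨σ, h1, h2⟩ i
    exact tan_sim (hmult i) (h1 (Sum.inl i)) h2
  refine ⟨fun h => ⟨hfirst Z h, tan_pr h⟩, ?_⟩
  rintro ⟨h1, h2⟩
  have hchi : Continuous (chi κ) :=
    continuous_pi fun _ => continuous_pi fun _ => hκ
  have hα' : ∀ x, Continuous (withK α κ x) := by
    intro x
    cases x with
    | none => exact hchi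
    | some s => exact hα s
  have hw' : ∀ x, Weak' J ρ (withK α κ x) := by
    intro x
    cases x with
    | none =>
      refine Or.inr ⟨⊤, isOpen_univ, fun σ _ τ _ => ?_⟩
      show chi κ σ * chi κ τ = chi κ τ * chi κ σ
      rw [← map_mul, ← map_mul]
      ext p q
      show κ (σ * τ) = κ (τ * σ)
      rw [map_mul, map_mul, mul_comm]
    | some s => exact hweak s
  obtain ⟨X', σ, h3, h4⟩ := lift hα' hρ (tanS_iff.1 h2)
  let Z' : Space ℚ_[ℓ] (Sum.elim N d) := (joinM X' (prS ℚ_[ℓ] N d Z).1, Z.2)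
  have hZ' : TanS (joinR ρ α) κ Z' := by
    refine ⟨σ, fun x => ?_, chi_tan.1 (h3 none)⟩
    cases x with
    | inl i => exact h4 i
    | inr s => exact h3 (some s)
  have h5 := hfirst Z' hZ'
  have h6 : ∀ i, SpLie (J i) (cenL w N d i Z - cenL w N d i Z') := fun i =>
    (spSub (J i)).sub_mem (h1 i) (h5 i)
  obtain ⟨τ, h7, h8⟩ := indep' hJ hρ (fun i g => ⟨_, hmult i g⟩) hα' hfull hw' h6
  let Z'' : Space ℚ_[ℓ] (Sum.elim N d) :=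
    (joinM (fun i => cenL w N d i Z - cenL w N d i Z') 0, 0)
  have hZ'' : TanS (joinR ρ α) κ Z'' := by
    refine ⟨τ, fun x => ?_, chi_tan.1 ?_⟩
    · cases x with
      | inl i => exact h7 i
      | inr s => exact h8 (some s)
    · exact h8 none
  obtain ⟨𝔤, h𝔤⟩ := exists_tanSub (joinR ρ α) κ
  have h9 : Z = Z' + Z'' := by
    refine Prod.ext ?_ ?_
    · funext x
      cases x with
      | inl i =>
        show pL Z i = X' i + ((pL Z i - ((w i : ℚ_[ℓ]) / 2 * Z.2) •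
          (1 : Matrix (Fin (N i)) (Fin (N i)) ℚ_[ℓ])) - (X' i - ((w i : ℚ_[ℓ]) / 2 * Z.2) •
          (1 : Matrix (Fin (N i)) (Fin (N i)) ℚ_[ℓ])))
        abel
      | inr s =>
        show (prS ℚ_[ℓ] N d Z).1 s = (prS ℚ_[ℓ] N d Z).1 s + 0
        rw [add_zero]
    · show Z.2 = Z.2 + 0
      rw [add_zero]
  rw [h9, ← h𝔤]
  exact 𝔤.add_mem ((h𝔤 _).2 hZ') ((h𝔤 _).2 hZ'')

end joint

section equiv
variable {ℓ : ℕ} [hℓ : Fact ℓ.Prime] {ι ι' : Type} [Fintype ι] [DecidableEq ι] [Fintype ι']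
  [DecidableEq ι'] {N w : ι → ℕ} {d : ι' → ℕ}
  {G : Type} [Group G] [TopologicalSpace G] [IsTopologicalGroup G] [CompactSpace G]
  {ρ : ∀ i, G →* Matrix (Fin (N i)) (Fin (N i)) ℚ_[ℓ]}
  {α : ∀ s, G →* Matrix (Fin (d s)) (Fin (d s)) ℚ_[ℓ]} {κ : G →* ℚ_[ℓ]}
  {J : ∀ i, Matrix (Fin (N i)) (Fin (N i)) ℚ}
  {h : ∀ i, Matrix (Fin (N i)) (Fin (N i)) ℂ} {hA : ∀ s, Matrix (Fin (d s)) (Fin (d s)) ℂ}

/-- **The Mumford-Tate conjecture for the sum is equivalent to the conjecture for the second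
family.** -/
theorem mtc_iff' (hJℂ : ∀ i, IsForm ((J i).map (algebraMap ℚ ℂ)))
    (hJℓ : ∀ i, IsForm ((J i).map (algebraMap ℚ ℚ_[ℓ])))
    (hρ : ∀ i, Continuous (ρ i)) (hα : ∀ s, Continuous (α s)) (hκ : Continuous κ)
    (hmult : ∀ i g, Sim ((J i).map (algebraMap ℚ ℚ_[ℓ])) (ρ i g) (κ g ^ w i))
    (hfull : ∀ X, (∀ i, SpLie ((J i).map (algebraMap ℚ ℚ_[ℓ])) (X i)) → JTan ℓ ρ X)
    (hg : GenericW J w h)
    (hweak : ∀ s, (∀ i, ¬ Related ((J i).map (algebraMap ℚ ℚ_[ℓ])) (ρ i) (α s) ∧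
        ¬ FitAd ((J i).map (algebraMap ℚ ℂ)) (h i) (hA s)) ∨
      ∃ U : Subgroup G, IsOpen (U : Set G) ∧ ∀ σ ∈ U, ∀ τ ∈ U, α s σ * α s τ = α s τ * α s σ) :
    MTC (joinR ρ α) κ (joinM h hA) ↔ MTC α κ hA := by
  have hweakℓ : ∀ s, Weak' (fun i => (J i).map (algebraMap ℚ ℚ_[ℓ])) ρ (α s) := by
    intro s
    rcases hweak s with h1 | h1
    · exact Or.inl fun i => (h1 i).1
    · exact Or.inr h1
  have htan := tan_iff' (w := w) hJℓ hρ hα hκ hmult hfull hweakℓ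
  obtain ⟨𝔤A, h𝔤A⟩ := exists_tanSub α κ
  constructor
  · intro hM Y
    constructor
    · intro hY
      -- the lift with scalar components
      let Z : Space ℚ_[ℓ] (Sum.elim N d) :=
        (joinM (fun i => ((w i : ℚ_[ℓ]) / 2 * Y.2) • (1 : Matrix (Fin (N i)) (Fin (N i)) ℚ_[ℓ])) Y.1,
          Y.2)
      have hZ : TanS (joinR ρ α) κ Z := by
        rw [htan]
        refine ⟨fun i => ?_, hY⟩
        have h1 : cenL w N d i Z = 0 := by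
          show ((w i : ℚ_[ℓ]) / 2 * Y.2) • (1 : Matrix (Fin (N i)) (Fin (N i)) ℚ_[ℓ]) -
            ((w i : ℚ_[ℓ]) / 2 * Y.2) • (1 : Matrix (Fin (N i)) (Fin (N i)) ℚ_[ℓ]) = 0
          exact sub_self _
        rw [h1]
        exact (spSub ((J i).map (algebraMap ℚ ℚ_[ℓ]))).zero_mem
      have h2 := (hM Z).1 hZ
      rw [mem_ext] at h2 ⊢
      intro f
      exact (hull_proj (z := ((joinM h hA, (1 : ℂ)) : Space ℂ (Sum.elim N d)))).2 ⟨_, h2 f, rfl⟩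
    · intro hY
      rw [← h𝔤A]
      refine (Submodule.span_le.2 ?_) hY
      rintro _ ⟨Y₀, hY₀, rfl⟩
      show _ ∈ 𝔤A
      rw [h𝔤A]
      obtain ⟨Z₀, hZ₀, rfl⟩ :=
        (hull_proj (z := ((joinM h hA, (1 : ℂ)) : Space ℂ (Sum.elim N d)))).1 hY₀
      exact tan_pr ((hM _).2 (generator hZ₀))
  · intro hA' Z
    have hs : ∀ s, (∀ i, ¬ FitAd ((J i).map (algebraMap ℚ ℂ)) (h i) (hA s)) ∨
        ∀ Z ∈ hull ℚ ((hA, (1 : ℂ)) : Space ℂ d), ∀ W ∈ hull ℚ ((hA, (1 : ℂ)) : Space ℂ d),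
          Z.1 s * W.1 s = W.1 s * Z.1 s := by
      intro s
      rcases hweak s with h1 | ⟨U, hU, hc⟩
      · exact Or.inl fun i => (h1 i).2
      · right
        intro Z hZ W hW
        obtain ⟨σ, h2, -⟩ := (hA' _).2 (generator (ℓ := ℓ) hZ)
        obtain ⟨τ, h3, -⟩ := (hA' _).2 (generator (ℓ := ℓ) hW)
        have h4 := tan_comm (hα s) hU hc ⟨σ, h2 s⟩ ⟨τ, h3 s⟩
        have h5 : ((Z.1 s).map (algebraMap ℚ ℚ_[ℓ])) * ((W.1 s).map (algebraMap ℚ ℚ_[ℓ])) =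
          ((W.1 s).map (algebraMap ℚ ℚ_[ℓ])) * ((Z.1 s).map (algebraMap ℚ ℚ_[ℓ])) := h4
        rw [← Matrix.map_mul, ← Matrix.map_mul] at h5
        exact Matrix.map_injective (algebraMap ℚ ℚ_[ℓ]).injective h5
    rw [hull_eq_big' hJℂ hg hs, ext_big, htan, hA']

end equiv

section
variable {K : Type} [Field K] [NumberField K] {ι : Type} [Fintype ι] [DecidableEq ι] {N w : ι → ℕ}
  {S : Set (HeightOneSpectrum (𝓞 K))} {P : ι → HeightOneSpectrum (𝓞 K) → ℚ[X]} {kd : ι → Kind}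

/-- the conclusion of the main theorem -/
def Concl' (J : ∀ i, Matrix (Fin (N i)) (Fin (N i)) ℚ) (ℓ : ℕ) [Fact ℓ.Prime]
    (κ : GK K →* ℚ_[ℓ]) (ρ : ∀ i, GK K →* Matrix (Fin (N i)) (Fin (N i)) ℚ_[ℓ])
    (h : ∀ i, Matrix (Fin (N i)) (Fin (N i)) ℂ) : Prop :=
  MTC ρ κ h ∧ ∀ (ι' : Type) [Fintype ι'] (d : ι' → ℕ)
    (α : ∀ s, GK K →* Matrix (Fin (d s)) (Fin (d s)) ℚ_[ℓ])
    (hA : ∀ s, Matrix (Fin (d s)) (Fin (d s)) ℂ), (∀ s, Continuous (α s)) →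
    (∀ s, (∀ i, ¬ Related ((J i).map (algebraMap ℚ ℚ_[ℓ])) (ρ i) (α s) ∧
        ¬ FitAd ((J i).map (algebraMap ℚ ℂ)) (h i) (hA s)) ∨
      ∃ U : Subgroup (GK K), IsOpen (U : Set (GK K)) ∧ ∀ σ ∈ U, ∀ τ ∈ U, α s σ * α s τ = α s τ * α s σ) →
    (MTC (joinR ρ α) κ (joinM h hA) ↔ MTC α κ hA)

/-- **The Mumford-Tate conjecture for sums with arbitrary small or potentially abelian motives, for 100
percent of the primes and for all primes with semisimple representations with scalar commutants** -/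
theorem mt_main (hS : S.Finite) (J : ∀ i, Matrix (Fin (N i)) (Fin (N i)) ℚ)
    (hfit : ∀ i, Fits (kd i) (J i)) (hdet : ∀ i, (J i).det ≠ 0) (hw : ∀ i, (J i)ᵀ = J i → w i = 0)
    (κ : ∀ (ℓ : ℕ) [Fact ℓ.Prime], GK K →* ℚ_[ℓ]) (hκc : ∀ (ℓ : ℕ) [Fact ℓ.Prime], Continuous (κ ℓ))
    (hκ : ∀ (ℓ : ℕ) [Fact ℓ.Prime], ∀ v ∉ S, (ℓ : 𝓞 K) ∉ v.asIdeal → ∀ σ : GK K, IsFrobenius v σ →
      κ ℓ σ⁻¹ = (Ideal.absNorm v.asIdeal : ℚ_[ℓ]))
    (ρ : ∀ (i : ι) (ℓ : ℕ) [Fact ℓ.Prime], GK K →* Matrix (Fin (N i)) (Fin (N i)) ℚ_[ℓ])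
    (hρc : ∀ (i : ι) (ℓ : ℕ) [Fact ℓ.Prime], Continuous (ρ i ℓ))
    (hmult : ∀ (i : ι) (ℓ : ℕ) [Fact ℓ.Prime] (g : GK K),
      Sim (JL J ℓ i) (ρ i ℓ g) (κ ℓ g ^ w i))
    (hfrob : ∀ (i : ι) (ℓ : ℕ) [Fact ℓ.Prime], ∀ v ∉ S, (ℓ : 𝓞 K) ∉ v.asIdeal → ∀ σ : GK K,
      IsFrobenius v σ → (ρ i ℓ σ⁻¹).charpoly = (P i v).map (algebraMap ℚ ℚ_[ℓ]))
    (h : ∀ i, Matrix (Fin (N i)) (Fin (N i)) ℂ) (hg : GenericW J w h)
    (ℓ₀ : ℕ) [hℓ₀ : Fact ℓ₀.Prime] (hal : ∀ i, Allows (kd i) (N i) ℓ₀ (JL J ℓ₀ i))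
    (hfull : ∀ X, (∀ i, SpLie (JL J ℓ₀ i) (X i)) → JTan ℓ₀ (fun i => ρ i ℓ₀) X) :
    Y142.ZI.DensityZero {ℓ | ∃ _ : Fact ℓ.Prime, ¬ Concl' J ℓ (κ ℓ) (fun i => ρ i ℓ) h} ∧
    ∀ (ℓ : ℕ) [Fact ℓ.Prime], (∀ i, SS (ρ i ℓ)) → (∀ i, SC (ρ i ℓ)) →
      Concl' J ℓ (κ ℓ) (fun i => ρ i ℓ) h := by
  have key : ∀ (ℓ : ℕ) [Fact ℓ.Prime],
      (∀ X, (∀ i, SpLie (JL J ℓ i) (X i)) → JTan ℓ (fun i => ρ i ℓ) X) →
      Concl' J ℓ (κ ℓ) (fun i => ρ i ℓ) h := by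
    intro ℓ _ hX
    have hdetL : ∀ (i : ι), (JL J ℓ i).det ≠ 0 := fun i =>
      det_map_ne (algebraMap ℚ ℚ_[ℓ]) (hdet i)
    have hfitL : ∀ (i : ι), Fits (kd i) (JL J ℓ i) := fun i =>
      (hfit i).map (algebraMap ℚ ℚ_[ℓ])
    have h2 : ∀ (ι' : Type) [Fintype ι'] (d : ι' → ℕ)
        (α : ∀ s, GK K →* Matrix (Fin (d s)) (Fin (d s)) ℚ_[ℓ])
        (hA : ∀ s, Matrix (Fin (d s)) (Fin (d s)) ℂ), (∀ s, Continuous (α s)) →
        (∀ s, (∀ i, ¬ Related ((J i).map (algebraMap ℚ ℚ_[ℓ])) (ρ i ℓ) (α s) ∧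
            ¬ FitAd ((J i).map (algebraMap ℚ ℂ)) (h i) (hA s)) ∨
          ∃ U : Subgroup (GK K), IsOpen (U : Set (GK K)) ∧
            ∀ σ ∈ U, ∀ τ ∈ U, α s σ * α s τ = α s τ * α s σ) →
        (MTC (joinR (fun i => ρ i ℓ) α) (κ ℓ) (joinM h hA) ↔ MTC α (κ ℓ) hA) := by
      intro ι' _ d α hA hα hsm
      classical
      exact mtc_iff' (fun i => ((hfit i).map (algebraMap ℚ ℂ)).isForm
        (det_map_ne (algebraMap ℚ ℂ) (hdet i))) (fun i => (hfitL i).isForm (hdetL i))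
        (fun i => hρc i ℓ) hα (hκc ℓ) (fun i g => hmult i ℓ g) hX hg hsm
    refine ⟨?_, h2⟩
    obtain ⟨c, σ, hc, hσ⟩ := kappa_tan hS ℓ (κ ℓ) (hκc ℓ) (hκ ℓ)
    have h3 : MTC (fun s : Empty => isEmptyElim s : ∀ s : Empty, GK K →* Matrix
        (Fin ((fun _ : Empty => 0) s)) (Fin ((fun _ : Empty => 0) s)) ℚ_[ℓ]) (κ ℓ)
        (fun s : Empty => isEmptyElim s) := mtc_empty hc hσ
    exact mtc_remove ((h2 Empty (fun _ => 0) (fun s => isEmptyElim s) (fun s => isEmptyElim s)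
      (fun s => isEmptyElim s) (fun s => isEmptyElim s)).2 h3)
  obtain ⟨h1, h2⟩ := full_of_one hS J hfit hdet hw κ hκ ρ hρc hmult hfrob ℓ₀ hal hfull
  refine ⟨h1.mono ?_, fun ℓ _ h3 h4 => key ℓ (h2 ℓ h3 h4)⟩
  rintro ℓ ⟨hp, hno⟩
  exact ⟨hp, fun h => hno (key ℓ h)⟩

end

end Pool.Agent.U190.JT
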