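import Pool.Agent.U190.JT.Mt

/-!
# The rational relation on the side of Hodge structures
-/

set_option autoImplicit false
set_option linter.unusedSectionVars false

open Matrix
open Pool.Agent.Y142.ZO Pool.Agent.Y142.ZI Pool.Agent.Y142.ZS Pool.Agent.R932.PO Pool.Agent.U190.JS
open Pool.Agent.U190.MT

namespace Pool.Agent.U190.JT

section split
variable {F : Type} [Field F] [CharZero F] {ι ι' : Type} [Fintype ι] [DecidableEq ι] [Fintype ι']
  [DecidableEq ι'] {N : ι → ℕ} {d : ι' → ℕ}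
  {J : ∀ i, Matrix (Fin (N i)) (Fin (N i)) F} {𝔥 : Submodule F (Fam F N d)}

/-- the Lie algebra of the form `J i` is a quotient of a Lie algebra of matrices of size `d s₀` -/
def RelAd2 (J : ∀ i, Matrix (Fin (N i)) (Fin (N i)) F) (𝔥 : Submodule F (Fam F N d)) (i : ι)
    (s₀ : ι') : Prop :=
  ∃ (𝔞 : Submodule F (Matrix (Fin (d s₀)) (Fin (d s₀)) F)) (Θ : 𝔞 →ₗ[F] spSub (J i)),
    Function.Surjective Θ ∧ (∀ X : 𝔞, ∃ Z ∈ 𝔥, Z.2 s₀ = X.val ∧ Z.1 i = (Θ X).val) ∧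
    ∀ W ∈ 𝔥, ∀ X : 𝔞, ∃ Z : 𝔞, Z.val = W.2 s₀ * X.val - X.val * W.2 s₀ ∧
      (Θ Z).val = W.1 i * (Θ X).val - (Θ X).val * W.1 i

theorem step_ad2 (hJ : ∀ i, IsForm (J i)) (hbr : ∀ Z ∈ 𝔥, ∀ W ∈ 𝔥, br Z W ∈ 𝔥)
    (hL : ∀ Z ∈ 𝔥, ∀ i, SpLie (J i) (Z.1 i)) {S : Finset ι'}
    (h : Lifts J 𝔥 S) {s₀ : ι'} (hs : ∀ i, ¬ RelAd2 J 𝔥 i s₀) : Lifts J 𝔥 (insert s₀ S) := by
  refine step hJ hbr h fun i => ?_
  by_contra hcon
  push Not at hcon
  apply hs i
  let V := part J 𝔥 S i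
  have hVb : ∀ Z ∈ 𝔥, ∀ W ∈ V, br Z W ∈ V := by
    rintro Z hZ W ⟨h1', h2', h3', h4'⟩
    refine ⟨hbr Z hZ W h1', br_sp (hL Z hZ i) h2', fun j hj => ?_, fun s hs => ?_⟩
    · show Z.1 j * W.1 j - W.1 j * Z.1 j = 0
      rw [h3' j hj, Matrix.zero_mul, Matrix.mul_zero, sub_zero]
    · show Z.2 s * W.2 s - W.2 s * Z.2 s = 0
      rw [h4' s hs, Matrix.zero_mul, Matrix.mul_zero, sub_zero]
  let p : V →ₗ[F] spSub (J i) :=
    { toFun := fun Z => ⟨Z.1.1 i, Z.2.2.1⟩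
      map_add' := fun Z W => rfl
      map_smul' := fun c Z => rfl }
  let q : V →ₗ[F] Matrix (Fin (d s₀)) (Fin (d s₀)) F :=
    { toFun := fun Z => Z.1.2 s₀
      map_add' := fun Z W => rfl
      map_smul' := fun c Z => rfl }
  have hk : LinearMap.ker q ≤ LinearMap.ker p := fun Z hZ => Subtype.ext (hcon Z.1 Z.2 hZ)
  let Θ : LinearMap.range q →ₗ[F] spSub (J i) :=
    ((LinearMap.ker q).liftQ p hk).comp q.quotKerEquivRange.symm.toLinearMap
  have hΘ : ∀ Z : V, Θ ⟨q Z, LinearMap.mem_range_self q Z⟩ = p Z := by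
    intro Z
    have h1 : q.quotKerEquivRange.symm ⟨q Z, LinearMap.mem_range_self q Z⟩ =
        (LinearMap.ker q).mkQ Z := by
      rw [LinearEquiv.symm_apply_eq]
      rfl
    show (LinearMap.ker q).liftQ p hk (q.quotKerEquivRange.symm ⟨q Z, _⟩) = p Z
    rw [h1]
    rfl
  refine ⟨LinearMap.range q, Θ, fun Y => ?_, ?_, ?_⟩
  · obtain ⟨Z, hZ, h1, h2, h3⟩ := h i Y.1 Y.2
    have hZV : Z ∈ V := ⟨hZ, by rw [h1]; exact Y.2, h2, h3⟩
    exact ⟨⟨q ⟨Z, hZV⟩, LinearMap.mem_range_self q _⟩, (hΘ _).trans (Subtype.ext h1)⟩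
  · rintro ⟨_, Z, rfl⟩
    refine ⟨Z.1, Z.2.1, rfl, ?_⟩
    rw [hΘ]
    rfl
  · rintro W hW ⟨_, Z, rfl⟩
    refine ⟨⟨q ⟨br W Z.1, hVb _ hW _ Z.2⟩, LinearMap.mem_range_self q _⟩, rfl, ?_⟩
    rw [hΘ, hΘ]
    rfl

/-- **Unrelated and commutative parts split off.** -/
theorem splits_ad2 (hJ : ∀ i, IsForm (J i)) (hbr : ∀ Z ∈ 𝔥, ∀ W ∈ 𝔥, br Z W ∈ 𝔥)
    (hL : ∀ Z ∈ 𝔥, ∀ i, SpLie (J i) (Z.1 i)) (h0 : Lifts J 𝔥 ∅)
    (hs : ∀ s, (∀ i, ¬ RelAd2 J 𝔥 i s) ∨ ∀ Z ∈ 𝔥, ∀ W ∈ 𝔥, Z.2 s * W.2 s = W.2 s * Z.2 s)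
    {X : ∀ i, Matrix (Fin (N i)) (Fin (N i)) F} (hX : ∀ i, SpLie (J i) (X i)) :
    ((X, 0) : Fam F N d) ∈ 𝔥 := by
  have hall : ∀ S : Finset ι', Lifts J 𝔥 S := by
    intro S
    induction S using Finset.induction_on with
    | empty => exact h0
    | insert s S _ ih =>
      rcases hs s with h | h
      · exact step_ad2 hJ hbr hL ih h
      · exact step_comm hJ hbr ih h
  have h1 : ∀ i, ((Pi.single i (X i), 0) : Fam F N d) ∈ 𝔥 := by
    intro i
    obtain ⟨Z, hZ, h2, h3, h4⟩ := hall Finset.univ i (X i) (hX i)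
    have h5 : ((Pi.single i (X i), 0) : Fam F N d) = Z := by
      refine Prod.ext ?_ ?_
      · funext j
        by_cases hj : j = i
        · subst hj
          show (Pi.single j (X j) : ∀ i, Matrix (Fin (N i)) (Fin (N i)) F) j = Z.1 j
          rw [Pi.single_eq_same, h2]
        · show (Pi.single i (X i) : ∀ i, Matrix (Fin (N i)) (Fin (N i)) F) j = Z.1 j
          rw [Pi.single_eq_of_ne hj, h3 j hj]
      · funext s
        exact (h4 s (Finset.mem_univ s)).symm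
    rw [h5]
    exact hZ
  have h2 : ((X, 0) : Fam F N d) = ∑ i, ((Pi.single i (X i), 0) : Fam F N d) := by
    refine Prod.ext ?_ ?_
    · rw [Prod.fst_sum]
      funext j
      rw [Finset.sum_apply, Finset.sum_eq_single j]
      · show X j = (Pi.single j (X j) : ∀ i, Matrix (Fin (N i)) (Fin (N i)) F) j
        rw [Pi.single_eq_same]
      · intro i _ hi
        show (Pi.single i (X i) : ∀ i, Matrix (Fin (N i)) (Fin (N i)) F) j = 0
        rw [Pi.single_eq_of_ne (Ne.symm hi)]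
      · intro hj
        exact absurd (Finset.mem_univ j) hj
    · rw [Prod.snd_sum]
      exact (Finset.sum_eq_zero fun _ _ => rfl).symm
  rw [h2]
  exact 𝔥.sum_mem fun i _ => h1 i

end split

section rel
variable {k₀ K : Type} [Field k₀] [Field K] [Algebra k₀ K]

variable (k₀) in
/-- the smallest Lie algebra of matrices over `k₀` whose extension of scalars contains `A` -/
def hull₁ {n : ℕ} (A : Matrix (Fin n) (Fin n) K) : Submodule k₀ (Matrix (Fin n) (Fin n) k₀) :=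
  sInf {𝔟 | (∀ X ∈ 𝔟, ∀ Y ∈ 𝔟, X * Y - Y * X ∈ 𝔟) ∧
    A ∈ Submodule.span K {Z | ∃ Y ∈ 𝔟, Z = Y.map (algebraMap k₀ K)}}

/-- the Lie algebra of the form `J` is a quotient of a Lie algebra of matrices over `k₀` in `hull₁ hA`,
compatibly with the operators `h` and `hA` -/
def HRel {M n : ℕ} (J : Matrix (Fin M) (Fin M) k₀) (h : Matrix (Fin M) (Fin M) K)
    (hA : Matrix (Fin n) (Fin n) K) : Prop :=
  ∃ (𝔞 : Submodule k₀ (Matrix (Fin n) (Fin n) k₀)) (Θ : 𝔞 →ₗ[k₀] spSub J),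
    Function.Surjective Θ ∧ (∀ X ∈ 𝔞, X ∈ hull₁ k₀ hA) ∧
    (∀ X Y : 𝔞, ∃ Z : 𝔞, Z.val = X.val * Y.val - Y.val * X.val ∧
      (Θ Z).val = (Θ X).val * (Θ Y).val - (Θ Y).val * (Θ X).val) ∧
    ∀ (f : K →ₗ[k₀] k₀) (X : 𝔞), ∃ Z : 𝔞, Z.val = hA.map f * X.val - X.val * hA.map f ∧
      (Θ Z).val = h.map f * (Θ X).val - (Θ X).val * h.map f

end rel

section
variable {k₀ K : Type} [Field k₀] [CharZero k₀] [Field K] [Algebra k₀ K] {ι ι' : Type} [Fintype ι]
  [DecidableEq ι] [Fintype ι'] [DecidableEq ι'] {N w : ι → ℕ} {d : ι' → ℕ}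
  {J : ∀ i, Matrix (Fin (N i)) (Fin (N i)) k₀}

theorem mat_coord {n : ℕ} {𝔟 : Submodule k₀ (Matrix (Fin n) (Fin n) k₀)}
    {A : Matrix (Fin n) (Fin n) K}
    (h : A ∈ Submodule.span K {Z | ∃ Y ∈ 𝔟, Z = Y.map (algebraMap k₀ K)}) :
    ∀ f : K →ₗ[k₀] k₀, A.map f ∈ 𝔟 := by
  induction h using Submodule.span_induction with
  | mem Z hZ =>
    obtain ⟨Y, hY, rfl⟩ := hZ
    intro f
    have h1 : (Y.map (algebraMap k₀ K)).map f = f 1 • Y := by
      ext p q
      show f (algebraMap k₀ K (Y p q)) = f 1 * Y p q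
      rw [Algebra.algebraMap_eq_smul_one, map_smul, smul_eq_mul, mul_comm]
    rw [h1]
    exact 𝔟.smul_mem _ hY
  | zero =>
    intro f
    have h1 : (0 : Matrix (Fin n) (Fin n) K).map f = 0 := by
      ext p q
      exact map_zero f
    rw [h1]
    exact 𝔟.zero_mem
  | add Z W _ _ hZ hW =>
    intro f
    have h1 : (Z + W).map f = Z.map f + W.map f := by
      ext p q
      exact map_add f _ _
    rw [h1]
    exact 𝔟.add_mem (hZ f) (hW f)
  | smul c Z _ hZ =>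
    intro f
    have h1 : (c • Z).map f = Z.map (f.comp (LinearMap.mulLeft k₀ c)) := by
      ext p q
      rfl
    rw [h1]
    exact hZ _

theorem hull_to_one {hA : ∀ s, Matrix (Fin (d s)) (Fin (d s)) K} {s : ι'} {Z : Space k₀ d}
    (hZ : Z ∈ hull k₀ ((hA, (1 : K)) : Space K d)) : Z.1 s ∈ hull₁ k₀ (hA s) := by
  unfold hull₁
  rw [Submodule.mem_sInf]
  rintro 𝔟 ⟨h1, h2⟩
  have h3 : hull k₀ ((hA, (1 : K)) : Space K d) ≤
      𝔟.comap ((LinearMap.proj s).comp (LinearMap.fst k₀ _ _)) := by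
    refine hull_le ?_ fun f => ?_
    · intro Z hZ W hW
      exact h1 _ hZ _ hW
    · exact mat_coord h2 f
  exact h3 hZ

/-- **The rational Lie algebra of the joint system is as large as possible.** -/
theorem hull_eq_big2 {h : ∀ i, Matrix (Fin (N i)) (Fin (N i)) K}
    {hA : ∀ s, Matrix (Fin (d s)) (Fin (d s)) K} (hJ : ∀ i, IsForm (J i)) (hg : GenericW J w h)
    (hs : ∀ s, (∀ i, ¬ HRel (J i) (h i) (hA s)) ∨
      ∀ Z ∈ hull k₀ ((hA, (1 : K)) : Space K d), ∀ W ∈ hull k₀ ((hA, (1 : K)) : Space K d),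
        Z.1 s * W.1 s = W.1 s * Z.1 s) :
    hull k₀ ((joinM h hA, (1 : K)) : Space K (Sum.elim N d)) =
      Big J w (hull k₀ ((hA, (1 : K)) : Space K d)) := by
  have : CharZero K := charZero_of_injective_algebraMap (algebraMap k₀ K).injective
  refine le_antisymm (hull_le_big hg.1) ?_
  have hle := hull_le_big (hA := hA) hg.1
  set 𝔥 := hull k₀ ((joinM h hA, (1 : K)) : Space K (Sum.elim N d)) with h𝔥
  -- the rational families
  let 𝔯 : Submodule k₀ (Fam k₀ N (dO d)) := 𝔥.comap (Psi w N d)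
  have hbr₀ : ∀ Z ∈ 𝔯, ∀ W ∈ 𝔯, br Z W ∈ 𝔯 := by
    intro Z hZ W hW
    show Psi w N d (br Z W) ∈ 𝔥
    rw [psi_br]
    exact hull_com _ hZ _ hW
  have hcoord : ∀ f : K →ₗ[k₀] k₀, ((fun i => (cen w h i).map f, fun x => match x with
      | none => Matrix.of fun _ _ => f 1
      | some s => (hA s).map f) : Fam k₀ N (dO d)) ∈ 𝔯 := by
    intro f
    show Psi w N d _ ∈ 𝔥
    have h1 : Psi w N d ((fun i => (cen w h i).map f, fun x => match x with
        | none => Matrix.of fun _ _ => f 1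
        | some s => (hA s).map f) : Fam k₀ N (dO d)) =
        mapS f ((joinM h hA, (1 : K)) : Space K (Sum.elim N d)) := by
      refine Prod.ext ?_ rfl
      funext x
      cases x with
      | inl i =>
        have h2 := cen_map (w := w) (h := h) (hA := hA) (d := d) f i
        show (cen w h i).map f + ((w i : k₀) / 2 * f 1) • (1 : Matrix (Fin (N i)) (Fin (N i)) k₀) =
          (h i).map f
        rw [← h2]
        have h3 : cenL w N d i (mapS f ((joinM h hA, (1 : K)) : Space K (Sum.elim N d))) =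
          (h i).map f - ((w i : k₀) / 2 * f 1) • (1 : Matrix (Fin (N i)) (Fin (N i)) k₀) := rfl
        rw [h3, sub_add_cancel]
      | inr s => rfl
    rw [h1]
    exact hull_coord f
  have hL : ∀ Z ∈ 𝔯, ∀ i, SpLie (J i) (Z.1 i) := by
    intro Z hZ i
    have h1 := (mem_big.1 (hle hZ)).1 i
    rwa [psi_cen] at h1
  have hA' : ∀ Z ∈ 𝔯, prS k₀ N d (Psi w N d Z) ∈ hull k₀ ((hA, (1 : K)) : Space K d) :=
    fun Z hZ => (mem_big.1 (hle hZ)).2
  have hrat : ∀ X : ∀ i, Matrix (Fin (N i)) (Fin (N i)) k₀, (∀ i, SpLie (J i) (X i)) →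
      ∃ Z ∈ 𝔯, Z.1 = X := by
    intro X hX
    have h2 := hg.2 (𝔯.map (LinearMap.fst k₀ _ _)) ?_ (fam_ext fun f => ⟨_, hcoord f, rfl⟩) _ hX
    · exact h2
    · rintro _ ⟨Z, hZ, rfl⟩ _ ⟨W, hW, rfl⟩
      exact ⟨br Z W, hbr₀ Z hZ W hW, rfl⟩
  have h0 : Lifts J 𝔯 ∅ := by
    intro i X hX
    have h1 : ∀ j, SpLie (J j) ((Pi.single i X : ∀ i, Matrix (Fin (N i)) (Fin (N i)) k₀) j) := by
      intro j
      by_cases hj : j = i
      · subst hj
        rw [Pi.single_eq_same]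
        exact hX
      · rw [Pi.single_eq_of_ne hj]
        exact (spSub (J j)).zero_mem
    obtain ⟨Z, hZ, hZX⟩ := hrat _ h1
    refine ⟨Z, hZ, ?_, fun j hj => ?_, fun s hs => absurd hs (Finset.notMem_empty s)⟩
    · rw [hZX, Pi.single_eq_same]
    · rw [hZX, Pi.single_eq_of_ne hj]
  have hsp : ∀ X, (∀ i, SpLie (J i) (X i)) → ((X, 0) : Fam k₀ N (dO d)) ∈ 𝔯 := by
    intro X hX
    refine splits_ad2 hJ hbr₀ hL h0 (fun x => ?_) hX
    cases x with
    | none =>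
      right
      intro Z _ W _
      exact one_comm _ _
    | some s =>
      rcases hs s with h1 | h1
      · left
        rintro i ⟨𝔞, Θ, h2, h3, h4⟩
        refine h1 i ⟨𝔞, Θ, h2, fun X hX => ?_, fun X Y => ?_, fun f X => ?_⟩
        · obtain ⟨Z, hZ, h5, -⟩ := h3 ⟨X, hX⟩
          have h6 := hull_to_one (s := s) (hA' Z hZ)
          have h7 : (prS k₀ N d (Psi w N d Z)).1 s = X := h5
          rwa [h7] at h6
        · obtain ⟨Z, hZ, h5, h6⟩ := h3 X
          obtain ⟨U, h7, h8⟩ := h4 Z hZ Y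
          rw [h5] at h7
          rw [h6] at h8
          exact ⟨U, h7, h8⟩
        · obtain ⟨U, h7, h8⟩ := h4 _ (hcoord f) X
          have h9 : (cen w h i).map f = (h i).map f - ((w i : k₀) / 2 * f 1) •
              (1 : Matrix (Fin (N i)) (Fin (N i)) k₀) :=
            (cen_map (w := w) (h := h) (hA := hA) (d := d) f i).symm
          have h10 : (Θ U).val = (h i).map f * (Θ X).val - (Θ X).val * (h i).map f := by
            rw [h8]
            show (cen w h i).map f * (Θ X).val - (Θ X).val * (cen w h i).map f = _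
            rw [h9, sub_mul, mul_sub, smul_mul_assoc, one_mul, mul_smul_comm, mul_one]
            abel
          exact ⟨U, h7, h10⟩
      · right
        intro Z hZ W hW
        exact h1 _ (hA' Z hZ) _ (hA' W hW)
  intro Z hZ
  rw [mem_big] at hZ
  obtain ⟨Z', hZ', hpr⟩ := (hull_proj (z := ((joinM h hA, (1 : K)) : Space K (Sum.elim N d)))).1 hZ.2
  have hZ'' := ((mem_big (J := J) (w := w)).1 (hle hZ')).1
  have h1 : ((fun i => cenL w N d i Z - cenL w N d i Z', 0) : Fam k₀ N (dO d)) ∈ 𝔯 := by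
    refine hsp _ fun i => ?_
    exact (spSub (J i)).sub_mem (hZ.1 i) (hZ'' i)
  have h2 : Psi w N d ((fun i => cenL w N d i Z - cenL w N d i Z', 0) : Fam k₀ N (dO d)) ∈ 𝔥 := h1
  have h3 : Z = Psi w N d ((fun i => cenL w N d i Z - cenL w N d i Z', 0) : Fam k₀ N (dO d)) + Z' := by
    have hp1 : ∀ s, (prS k₀ N d Z').1 s = (prS k₀ N d Z).1 s := fun s => by rw [hpr]
    have hp2 : Z'.2 = Z.2 := by
      have h4 : (prS k₀ N d Z').2 = (prS k₀ N d Z).2 := by rw [hpr]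
      exact h4
    refine Prod.ext ?_ ?_
    · funext x
      cases x with
      | inl i =>
        show pL Z i = (pL Z i - ((w i : k₀) / 2 * Z.2) •
          (1 : Matrix (Fin (N i)) (Fin (N i)) k₀) - (pL Z' i - ((w i : k₀) / 2 * Z'.2) •
          (1 : Matrix (Fin (N i)) (Fin (N i)) k₀)) + ((w i : k₀) / 2 * 0) •
          (1 : Matrix (Fin (N i)) (Fin (N i)) k₀)) + pL Z' i
        rw [hp2, mul_zero, zero_smul, add_zero]
        abel
      | inr s =>
        show (prS k₀ N d Z).1 s = 0 + (prS k₀ N d Z').1 s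
        rw [hp1, zero_add]
    · show Z.2 = 0 + Z'.2
      rw [hp2, zero_add]
  rw [h3]
  exact 𝔥.add_mem h2 hZ'

end

end Pool.Agent.U190.JT
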