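import Pool.Agent.U190.JT.Rat
import Pool.Agent.U190.JT.Crit

/-!
# The criterion for the relation on the side of Hodge structures, and the main theorem
-/

set_option autoImplicit false
set_option linter.unusedSectionVars false
set_option linter.style.haveILetI false

open Matrix Polynomial Filter Topology NumberField IsDedekindDomain
open Pool.Agent.Y142.ZO Pool.Agent.Y142.ZI Pool.Agent.Y142.ZS
open Pool.Agent.R932.OP Pool.Agent.R932.EV Pool.Agent.R932.PO Pool.Agent.U190.JS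
open Pool.Agent.U190.MT

namespace Pool.Agent.U190.JT

section crit
variable {k₀ K : Type} [Field k₀] [CharZero k₀] [Field K] [CharZero K] [Algebra k₀ K]

theorem mul_coord_right {n : ℕ} (A : Matrix (Fin n) (Fin n) K) (B : Matrix (Fin n) (Fin n) k₀)
    (f : K →ₗ[k₀] k₀) : (A * B.map (algebraMap k₀ K)).map f = A.map f * B := by
  ext p q
  show f ((A * B.map (algebraMap k₀ K)) p q) = (A.map f * B) p q
  rw [Matrix.mul_apply, Matrix.mul_apply, map_sum]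
  refine Finset.sum_congr rfl fun j _ => ?_
  rw [Matrix.map_apply, Matrix.map_apply, mul_comm, ← Algebra.smul_def, map_smul, smul_eq_mul,
    mul_comm]

theorem mul_coord_left {n : ℕ} (A : Matrix (Fin n) (Fin n) K) (B : Matrix (Fin n) (Fin n) k₀)
    (f : K →ₗ[k₀] k₀) : (B.map (algebraMap k₀ K) * A).map f = B * A.map f := by
  ext p q
  show f ((B.map (algebraMap k₀ K) * A) p q) = (B * A.map f) p q
  rw [Matrix.mul_apply, Matrix.mul_apply, map_sum]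
  refine Finset.sum_congr rfl fun j _ => ?_
  rw [Matrix.map_apply, Matrix.map_apply, ← Algebra.smul_def, map_smul, smul_eq_mul]

theorem mat_ext_zero {n : ℕ} {A : Matrix (Fin n) (Fin n) K}
    (h : ∀ f : K →ₗ[k₀] k₀, A.map f = 0) : A = 0 := by
  ext p q
  rw [Matrix.zero_apply, ← Module.forall_dual_apply_eq_zero_iff k₀]
  intro f
  exact congrFun (congrFun (h f) p) q

/-- **A relation implies that the characteristic polynomials of the adjoint operators divide.** -/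
theorem fit_of_hrel {M n : ℕ} {J : Matrix (Fin M) (Fin M) k₀} {h : Matrix (Fin M) (Fin M) K}
    {hA : Matrix (Fin n) (Fin n) K} (hrel : HRel J h hA) :
    FitAd (J.map (algebraMap k₀ K)) h hA := by
  intro g e hg he
  obtain ⟨𝔞, Θ, h1, -, -, h4⟩ := hrel
  let nn : Unit ⊕ Unit → ℕ := Sum.elim (fun _ => M) (fun _ => n)
  let Γ : Submodule k₀ (Space k₀ nn) :=
    { carrier := {Z | ∃ X : 𝔞, Z.1 (Sum.inr ()) = X.val ∧ Z.1 (Sum.inl ()) = (Θ X).val ∧ Z.2 = 0}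
      zero_mem' := ⟨0, rfl, by rw [map_zero]; rfl, rfl⟩
      add_mem' := by
        rintro Z W ⟨X, h5, h6, h7⟩ ⟨Y, h8, h9, h10⟩
        refine ⟨X + Y, ?_, ?_, ?_⟩
        · show Z.1 (Sum.inr ()) + W.1 (Sum.inr ()) = X.val + Y.val
          rw [h5, h8]
          rfl
        · show Z.1 (Sum.inl ()) + W.1 (Sum.inl ()) = (Θ (X + Y)).val
          rw [h6, h9, map_add]
          rfl
        · show Z.2 + W.2 = 0
          rw [h7, h10, add_zero]
      smul_mem' := by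
        rintro c Z ⟨X, h5, h6, h7⟩
        refine ⟨c • X, ?_, ?_, ?_⟩
        · show c • Z.1 (Sum.inr ()) = c • X.val
          rw [h5]
          rfl
        · show c • Z.1 (Sum.inl ()) = (Θ (c • X)).val
          rw [h6, map_smul]
          rfl
        · show c • Z.2 = 0
          rw [h7, smul_zero] }
  let ΓK : Submodule K (Space K nn) := extS K Γ
  let W₀ : Space K nn := (fun x => match x with
    | Sum.inl _ => h
    | Sum.inr _ => hA, 0)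
  have hmem : ∀ Z ∈ ΓK, ∀ f : K →ₗ[k₀] k₀, ∃ X : 𝔞, (show Matrix (Fin n) (Fin n) K from
      Z.1 (Sum.inr ())).map f = X.val ∧ (show Matrix (Fin M) (Fin M) K from
      Z.1 (Sum.inl ())).map f = (Θ X).val := by
    intro Z hZ f
    obtain ⟨X, h5, h6, -⟩ := coord_of_ext hZ f
    exact ⟨X, h5, h6⟩
  have hstab : ΓK ≤ ΓK.comap (comL W₀) := by
    refine Submodule.span_le.2 ?_
    rintro _ ⟨Y, ⟨X, h5, h6, h7⟩, rfl⟩
    refine ext_of_coord fun f => ?_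
    obtain ⟨Z, h8, h9⟩ := h4 f X
    refine ⟨Z, ?_, ?_, map_zero f⟩
    · have h10 : (show Matrix (Fin n) (Fin n) k₀ from Y.1 (Sum.inr ())) = X.val := h5
      show (hA * (show Matrix (Fin n) (Fin n) k₀ from Y.1 (Sum.inr ())).map (algebraMap k₀ K) -
        (show Matrix (Fin n) (Fin n) k₀ from Y.1 (Sum.inr ())).map (algebraMap k₀ K) * hA).map f =
          Z.val
      rw [h10, h8, ← mul_coord_right, ← mul_coord_left]
      ext p q
      exact map_sub f _ _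
    · have h10 : (show Matrix (Fin M) (Fin M) k₀ from Y.1 (Sum.inl ())) = (Θ X).val := h6
      show (h * (show Matrix (Fin M) (Fin M) k₀ from Y.1 (Sum.inl ())).map (algebraMap k₀ K) -
        (show Matrix (Fin M) (Fin M) k₀ from Y.1 (Sum.inl ())).map (algebraMap k₀ K) * h).map f =
          (Θ Z).val
      rw [h10, h9, ← mul_coord_right, ← mul_coord_left]
      ext p q
      exact map_sub f _ _
  let p : ΓK →ₗ[K] spSub (J.map (algebraMap k₀ K)) :=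
    { toFun := fun Z => ⟨Z.1.1 (Sum.inl ()), spLie_iff.2 fun f => by
        obtain ⟨X, -, h6⟩ := hmem Z.1 Z.2 f
        exact h6 ▸ (Θ X).2⟩
      map_add' := fun Z W => rfl
      map_smul' := fun c Z => rfl }
  let q : ΓK →ₗ[K] Matrix (Fin n) (Fin n) K :=
    { toFun := fun Z => Z.1.1 (Sum.inr ())
      map_add' := fun Z W => rfl
      map_smul' := fun c Z => rfl }
  have hp : Function.Surjective p := by
    intro Y
    have h5 := fam_ext (ι := Unit) (N := fun _ => M) (𝔞 := Submodule.pi Set.univ fun _ => spSub J)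
      (h := fun _ => Y.1) (K := K) (fun f => by
        rw [Submodule.mem_pi]
        intro j _
        exact spLie_iff.1 Y.2 f)
    have h6 : (fun _ : Unit => Y.1) ∈ ((LinearMap.range p).map
        (spSub (J.map (algebraMap k₀ K))).subtype).comap (LinearMap.proj () : (∀ _ : Unit,
          Matrix (Fin M) (Fin M) K) →ₗ[K] Matrix (Fin M) (Fin M) K) := by
      refine (Submodule.span_le.2 ?_) h5
      rintro _ ⟨Y₀, hY₀, rfl⟩
      have h7 : SpLie J (Y₀ ()) := (Submodule.mem_pi.1 hY₀) () trivial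
      obtain ⟨X, hX⟩ := h1 ⟨Y₀ (), h7⟩
      let Z₀ : Space k₀ nn := (fun x => match x with
        | Sum.inl _ => (Θ X).val
        | Sum.inr _ => X.val, 0)
      have h8 : mapS (algebraMap k₀ K) Z₀ ∈ ΓK :=
        Submodule.subset_span ⟨Z₀, ⟨X, rfl, rfl, rfl⟩, rfl⟩
      refine ⟨p ⟨_, h8⟩, LinearMap.mem_range_self p _, ?_⟩
      show (Θ X).val.map (algebraMap k₀ K) = (Y₀ ()).map (algebraMap k₀ K)
      rw [hX]
    obtain ⟨_, ⟨Z, rfl⟩, hZ⟩ := h6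
    exact ⟨Z, Subtype.ext hZ⟩
  have hk : LinearMap.ker q ≤ LinearMap.ker p := by
    intro Z hZ
    have hZ' : (show Matrix (Fin n) (Fin n) K from Z.1.1 (Sum.inr ())) = 0 := hZ
    apply Subtype.ext
    refine mat_ext_zero (k₀ := k₀) fun f => ?_
    obtain ⟨X, h5, h6⟩ := hmem Z.1 Z.2 f
    rw [hZ'] at h5
    have h7 : X = 0 := by
      apply Subtype.ext
      rw [← h5]
      ext i j
      exact map_zero f
    rw [h7, map_zero] at h6
    exact h6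
  refine dvd_of_corr p hp q hk ((comL W₀).restrict hstab) g e (fun Z => ?_) fun Z => ?_
  · apply Subtype.ext
    rw [hg]
    rfl
  · rw [he]
    rfl

end crit

section equiv
variable {ℓ : ℕ} [hℓ : Fact ℓ.Prime] {ι ι' : Type} [Fintype ι] [DecidableEq ι] [Fintype ι']
  [DecidableEq ι'] {N w : ι → ℕ} {d : ι' → ℕ}
  {G : Type} [Group G] [TopologicalSpace G] [IsTopologicalGroup G] [CompactSpace G]
  {ρ : ∀ i, G →* Matrix (Fin (N i)) (Fin (N i)) ℚ_[ℓ]}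
  {α : ∀ s, G →* Matrix (Fin (d s)) (Fin (d s)) ℚ_[ℓ]} {κ : G →* ℚ_[ℓ]}
  {J : ∀ i, Matrix (Fin (N i)) (Fin (N i)) ℚ}
  {h : ∀ i, Matrix (Fin (N i)) (Fin (N i)) ℂ} {hA : ∀ s, Matrix (Fin (d s)) (Fin (d s)) ℂ}

/-- **The Mumford-Tate conjecture for the sum is equivalent to the conjecture for the second
family.** -/
theorem mtc_iff2 (hJ : ∀ i, IsForm (J i))
    (hJℓ : ∀ i, IsForm ((J i).map (algebraMap ℚ ℚ_[ℓ])))
    (hρ : ∀ i, Continuous (ρ i)) (hα : ∀ s, Continuous (α s)) (hκ : Continuous κ)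
    (hmult : ∀ i g, Sim ((J i).map (algebraMap ℚ ℚ_[ℓ])) (ρ i g) (κ g ^ w i))
    (hfull : ∀ X, (∀ i, SpLie ((J i).map (algebraMap ℚ ℚ_[ℓ])) (X i)) → JTan ℓ ρ X)
    (hg : GenericW J w h)
    (hweak : ∀ s, (∀ i, ¬ Related ((J i).map (algebraMap ℚ ℚ_[ℓ])) (ρ i) (α s) ∧
        ¬ HRel (J i) (h i) (hA s)) ∨
      ∃ U : Subgroup G, IsOpen (U : Set G) ∧ ∀ σ ∈ U, ∀ τ ∈ U, α s σ * α s τ = α s τ * α s σ) :
    MTC (joinR ρ α) κ (joinM h hA) ↔ MTC α κ hA := by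
  have hweakℓ : ∀ s, Weak' (fun i => (J i).map (algebraMap ℚ ℚ_[ℓ])) ρ (α s) := by
    intro s
    rcases hweak s with h1 | h1
    · exact Or.inl fun i => (h1 i).1
    · exact Or.inr h1
  have htan := tan_iff' (w := w) hJℓ hρ hα hκ hmult hfull hweakℓ
  obtain ⟨𝔤A, h𝔤A⟩ := exists_tanSub α κ
  constructor
  · intro hM Y
    constructor
    · intro hY
      -- the lift with scalar components
      let Z : Space ℚ_[ℓ] (Sum.elim N d) :=
        (joinM (fun i => ((w i : ℚ_[ℓ]) / 2 * Y.2) • (1 : Matrix (Fin (N i)) (Fin (N i)) ℚ_[ℓ])) Y.1,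
          Y.2)
      have hZ : TanS (joinR ρ α) κ Z := by
        rw [htan]
        refine ⟨fun i => ?_, hY⟩
        have h1 : cenL w N d i Z = 0 := by
          show ((w i : ℚ_[ℓ]) / 2 * Y.2) • (1 : Matrix (Fin (N i)) (Fin (N i)) ℚ_[ℓ]) -
            ((w i : ℚ_[ℓ]) / 2 * Y.2) • (1 : Matrix (Fin (N i)) (Fin (N i)) ℚ_[ℓ]) = 0
          exact sub_self _
        rw [h1]
        exact (spSub ((J i).map (algebraMap ℚ ℚ_[ℓ]))).zero_mem
      have h2 := (hM Z).1 hZ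
      rw [mem_ext] at h2 ⊢
      intro f
      exact (hull_proj (z := ((joinM h hA, (1 : ℂ)) : Space ℂ (Sum.elim N d)))).2 ⟨_, h2 f, rfl⟩
    · intro hY
      rw [← h𝔤A]
      refine (Submodule.span_le.2 ?_) hY
      rintro _ ⟨Y₀, hY₀, rfl⟩
      show _ ∈ 𝔤A
      rw [h𝔤A]
      obtain ⟨Z₀, hZ₀, rfl⟩ :=
        (hull_proj (z := ((joinM h hA, (1 : ℂ)) : Space ℂ (Sum.elim N d)))).1 hY₀
      exact tan_pr ((hM _).2 (generator hZ₀))
  · intro hA' Z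
    have hs : ∀ s, (∀ i, ¬ HRel (J i) (h i) (hA s)) ∨
        ∀ Z ∈ hull ℚ ((hA, (1 : ℂ)) : Space ℂ d), ∀ W ∈ hull ℚ ((hA, (1 : ℂ)) : Space ℂ d),
          Z.1 s * W.1 s = W.1 s * Z.1 s := by
      intro s
      rcases hweak s with h1 | ⟨U, hU, hc⟩
      · exact Or.inl fun i => (h1 i).2
      · right
        intro Z hZ W hW
        obtain ⟨σ, h2, -⟩ := (hA' _).2 (generator (ℓ := ℓ) hZ)
        obtain ⟨τ, h3, -⟩ := (hA' _).2 (generator (ℓ := ℓ) hW)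
        have h4 := tan_comm (hα s) hU hc ⟨σ, h2 s⟩ ⟨τ, h3 s⟩
        have h5 : ((Z.1 s).map (algebraMap ℚ ℚ_[ℓ])) * ((W.1 s).map (algebraMap ℚ ℚ_[ℓ])) =
          ((W.1 s).map (algebraMap ℚ ℚ_[ℓ])) * ((Z.1 s).map (algebraMap ℚ ℚ_[ℓ])) := h4
        rw [← Matrix.map_mul, ← Matrix.map_mul] at h5
        exact Matrix.map_injective (algebraMap ℚ ℚ_[ℓ]).injective h5
    rw [hull_eq_big2 hJ hg hs, ext_big, htan, hA']

end equiv

section
variable {K : Type} [Field K] [NumberField K] {ι : Type} [Fintype ι] [DecidableEq ι] {N w : ι → ℕ}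
  {S : Set (HeightOneSpectrum (𝓞 K))} {P : ι → HeightOneSpectrum (𝓞 K) → ℚ[X]} {kd : ι → Kind}

/-- the conclusion of the main theorem -/
def Concl2 (J : ∀ i, Matrix (Fin (N i)) (Fin (N i)) ℚ) (ℓ : ℕ) [Fact ℓ.Prime]
    (κ : GK K →* ℚ_[ℓ]) (ρ : ∀ i, GK K →* Matrix (Fin (N i)) (Fin (N i)) ℚ_[ℓ])
    (h : ∀ i, Matrix (Fin (N i)) (Fin (N i)) ℂ) : Prop :=
  MTC ρ κ h ∧ ∀ (ι' : Type) [Fintype ι'] (d : ι' → ℕ)
    (α : ∀ s, GK K →* Matrix (Fin (d s)) (Fin (d s)) ℚ_[ℓ])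
    (hA : ∀ s, Matrix (Fin (d s)) (Fin (d s)) ℂ), (∀ s, Continuous (α s)) →
    (∀ s, (∀ i, ¬ Related ((J i).map (algebraMap ℚ ℚ_[ℓ])) (ρ i) (α s) ∧
        ¬ HRel (J i) (h i) (hA s)) ∨
      ∃ U : Subgroup (GK K), IsOpen (U : Set (GK K)) ∧ ∀ σ ∈ U, ∀ τ ∈ U, α s σ * α s τ = α s τ * α s σ) →
    (MTC (joinR ρ α) κ (joinM h hA) ↔ MTC α κ hA)

/-- **The Mumford-Tate conjecture for sums with arbitrary unrelated or potentially abelian motives, for 100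
percent of the primes and for all primes with semisimple representations with scalar commutants** -/
theorem mt_main2 (hS : S.Finite) (J : ∀ i, Matrix (Fin (N i)) (Fin (N i)) ℚ)
    (hfit : ∀ i, Fits (kd i) (J i)) (hdet : ∀ i, (J i).det ≠ 0) (hw : ∀ i, (J i)ᵀ = J i → w i = 0)
    (κ : ∀ (ℓ : ℕ) [Fact ℓ.Prime], GK K →* ℚ_[ℓ]) (hκc : ∀ (ℓ : ℕ) [Fact ℓ.Prime], Continuous (κ ℓ))
    (hκ : ∀ (ℓ : ℕ) [Fact ℓ.Prime], ∀ v ∉ S, (ℓ : 𝓞 K) ∉ v.asIdeal → ∀ σ : GK K, IsFrobenius v σ →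
      κ ℓ σ⁻¹ = (Ideal.absNorm v.asIdeal : ℚ_[ℓ]))
    (ρ : ∀ (i : ι) (ℓ : ℕ) [Fact ℓ.Prime], GK K →* Matrix (Fin (N i)) (Fin (N i)) ℚ_[ℓ])
    (hρc : ∀ (i : ι) (ℓ : ℕ) [Fact ℓ.Prime], Continuous (ρ i ℓ))
    (hmult : ∀ (i : ι) (ℓ : ℕ) [Fact ℓ.Prime] (g : GK K),
      Sim (JL J ℓ i) (ρ i ℓ g) (κ ℓ g ^ w i))
    (hfrob : ∀ (i : ι) (ℓ : ℕ) [Fact ℓ.Prime], ∀ v ∉ S, (ℓ : 𝓞 K) ∉ v.asIdeal → ∀ σ : GK K,
      IsFrobenius v σ → (ρ i ℓ σ⁻¹).charpoly = (P i v).map (algebraMap ℚ ℚ_[ℓ]))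
    (h : ∀ i, Matrix (Fin (N i)) (Fin (N i)) ℂ) (hg : GenericW J w h)
    (ℓ₀ : ℕ) [hℓ₀ : Fact ℓ₀.Prime] (hal : ∀ i, Allows (kd i) (N i) ℓ₀ (JL J ℓ₀ i))
    (hfull : ∀ X, (∀ i, SpLie (JL J ℓ₀ i) (X i)) → JTan ℓ₀ (fun i => ρ i ℓ₀) X) :
    Y142.ZI.DensityZero {ℓ | ∃ _ : Fact ℓ.Prime, ¬ Concl2 J ℓ (κ ℓ) (fun i => ρ i ℓ) h} ∧
    ∀ (ℓ : ℕ) [Fact ℓ.Prime], (∀ i, SS (ρ i ℓ)) → (∀ i, SC (ρ i ℓ)) →
      Concl2 J ℓ (κ ℓ) (fun i => ρ i ℓ) h := by
  have key : ∀ (ℓ : ℕ) [Fact ℓ.Prime],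
      (∀ X, (∀ i, SpLie (JL J ℓ i) (X i)) → JTan ℓ (fun i => ρ i ℓ) X) →
      Concl2 J ℓ (κ ℓ) (fun i => ρ i ℓ) h := by
    intro ℓ _ hX
    have hdetL : ∀ (i : ι), (JL J ℓ i).det ≠ 0 := fun i =>
      det_map_ne (algebraMap ℚ ℚ_[ℓ]) (hdet i)
    have hfitL : ∀ (i : ι), Fits (kd i) (JL J ℓ i) := fun i =>
      (hfit i).map (algebraMap ℚ ℚ_[ℓ])
    have h2 : ∀ (ι' : Type) [Fintype ι'] (d : ι' → ℕ)
        (α : ∀ s, GK K →* Matrix (Fin (d s)) (Fin (d s)) ℚ_[ℓ])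
        (hA : ∀ s, Matrix (Fin (d s)) (Fin (d s)) ℂ), (∀ s, Continuous (α s)) →
        (∀ s, (∀ i, ¬ Related ((J i).map (algebraMap ℚ ℚ_[ℓ])) (ρ i ℓ) (α s) ∧
            ¬ HRel (J i) (h i) (hA s)) ∨
          ∃ U : Subgroup (GK K), IsOpen (U : Set (GK K)) ∧
            ∀ σ ∈ U, ∀ τ ∈ U, α s σ * α s τ = α s τ * α s σ) →
        (MTC (joinR (fun i => ρ i ℓ) α) (κ ℓ) (joinM h hA) ↔ MTC α (κ ℓ) hA) := by
      intro ι' _ d α hA hα hsm
      classical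
      exact mtc_iff2 (fun i => (hfit i).isForm (hdet i)) (fun i => (hfitL i).isForm (hdetL i))
        (fun i => hρc i ℓ) hα (hκc ℓ) (fun i g => hmult i ℓ g) hX hg hsm
    refine ⟨?_, h2⟩
    obtain ⟨c, σ, hc, hσ⟩ := kappa_tan hS ℓ (κ ℓ) (hκc ℓ) (hκ ℓ)
    have h3 : MTC (fun s : Empty => isEmptyElim s : ∀ s : Empty, GK K →* Matrix
        (Fin ((fun _ : Empty => 0) s)) (Fin ((fun _ : Empty => 0) s)) ℚ_[ℓ]) (κ ℓ)
        (fun s : Empty => isEmptyElim s) := mtc_empty hc hσ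
    exact mtc_remove ((h2 Empty (fun _ => 0) (fun s => isEmptyElim s) (fun s => isEmptyElim s)
      (fun s => isEmptyElim s) (fun s => isEmptyElim s)).2 h3)
  obtain ⟨h1, h2⟩ := full_of_one hS J hfit hdet hw κ hκ ρ hρc hmult hfrob ℓ₀ hal hfull
  refine ⟨h1.mono ?_, fun ℓ _ h3 h4 => key ℓ (h2 ℓ h3 h4)⟩
  rintro ℓ ⟨hp, hno⟩
  exact ⟨hp, fun h => hno (key ℓ h)⟩

end

end Pool.Agent.U190.JT
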