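import Pool.Agent.U190.JT.Cp
import Pool.Agent.U190.JS.Tan

/-!
# Representations which are separated by one element of the group are independent

`𝔥` is a Lie algebra of families of matrices which is stable under the conjugation by a group. If for
one element of the group the characteristic polynomial on the Lie algebra of the form does not divide
the characteristic polynomial on the algebra of the matrices of size `d s₀` then the component at `s₀`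
splits off.
-/

set_option autoImplicit false
set_option linter.unusedSectionVars false
set_option linter.style.haveILetI false

open Matrix Filter Topology Polynomial
open Pool.Agent.Y142.ZO Pool.Agent.Y142.ZI Pool.Agent.Y142.ZS Pool.Agent.R932.PO
open Pool.Agent.U190.JS

namespace Pool.Agent.U190.JT

section split
variable {F : Type} [Field F] [CharZero F] {ι ι' : Type} [Fintype ι] [DecidableEq ι] [Fintype ι']
  [DecidableEq ι'] {N : ι → ℕ} {d : ι' → ℕ}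

variable {J : ∀ i, Matrix (Fin (N i)) (Fin (N i)) F} {𝔥 : Submodule F (Fam F N d)}

/-- the conjugation by the families `A`, `A'` -/
def cj (A A' : Fam F N d) (Z : Fam F N d) : Fam F N d :=
  (fun i => A.1 i * Z.1 i * A'.1 i, fun s => A.2 s * Z.2 s * A'.2 s)

/-- the subspace of the families in `𝔥` with components zero except at `i` and outside of `S` -/
def part (J : ∀ i, Matrix (Fin (N i)) (Fin (N i)) F) (𝔥 : Submodule F (Fam F N d)) (S : Finset ι')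
    (i : ι) : Submodule F (Fam F N d) where
  carrier := {Z | Z ∈ 𝔥 ∧ SpLie (J i) (Z.1 i) ∧ (∀ j, j ≠ i → Z.1 j = 0) ∧ ∀ s ∈ S, Z.2 s = 0}
  zero_mem' := ⟨𝔥.zero_mem, (spSub (J i)).zero_mem, fun _ _ => rfl, fun _ _ => rfl⟩
  add_mem' := by
    rintro Z W ⟨h1, h2, h3, h4⟩ ⟨h1', h2', h3', h4'⟩
    refine ⟨𝔥.add_mem h1 h1', (spSub (J i)).add_mem h2 h2', fun j hj => ?_, fun s hs => ?_⟩
    · show Z.1 j + W.1 j = 0
      rw [h3 j hj, h3' j hj, add_zero]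
    · show Z.2 s + W.2 s = 0
      rw [h4 s hs, h4' s hs, add_zero]
  smul_mem' := by
    rintro c Z ⟨h1, h2, h3, h4⟩
    refine ⟨𝔥.smul_mem c h1, (spSub (J i)).smul_mem c h2, fun j hj => ?_, fun s hs => ?_⟩
    · show c • Z.1 j = 0
      rw [h3 j hj, smul_zero]
    · show c • Z.2 s = 0
      rw [h4 s hs, smul_zero]

/-- the general step -/
theorem step (hJ : ∀ i, IsForm (J i)) (hbr : ∀ Z ∈ 𝔥, ∀ W ∈ 𝔥, br Z W ∈ 𝔥) {S : Finset ι'}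
    (h : Lifts J 𝔥 S) {s₀ : ι'} (hex : ∀ i, ∃ Z ∈ part J 𝔥 S i, Z.2 s₀ = 0 ∧ Z.1 i ≠ 0) :
    Lifts J 𝔥 (insert s₀ S) := by
  intro i X hX
  obtain ⟨Z₀, hZ₀, hq₀, hp₀⟩ := hex i
  let V := part J 𝔥 S i
  let p₀ : Fam F N d →ₗ[F] Matrix (Fin (N i)) (Fin (N i)) F :=
    (LinearMap.proj i).comp (LinearMap.fst F _ _)
  let q₀ : Fam F N d →ₗ[F] Matrix (Fin (d s₀)) (Fin (d s₀)) F :=
    (LinearMap.proj s₀).comp (LinearMap.snd F _ _)
  let p : V →ₗ[F] Matrix (Fin (N i)) (Fin (N i)) F := p₀.comp V.subtype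
  let q : V →ₗ[F] Matrix (Fin (d s₀)) (Fin (d s₀)) F := q₀.comp V.subtype
  let I : Submodule F (Matrix (Fin (N i)) (Fin (N i)) F) := (LinearMap.ker q).map p
  have hI : ∀ Y, SpLie (J i) Y → ∀ A ∈ I, Y * A - A * Y ∈ I := by
    rintro Y hY A ⟨Z, hZ, rfl⟩
    obtain ⟨W, hW, h1, h2, h3⟩ := h i Y hY
    have hZV : Z.1 ∈ 𝔥 ∧ SpLie (J i) (Z.1.1 i) ∧ (∀ j, j ≠ i → Z.1.1 j = 0) ∧
      ∀ s ∈ S, Z.1.2 s = 0 := Z.2
    have hZq : Z.1.2 s₀ = 0 := hZ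
    have hB : br W Z.1 ∈ V := by
      refine ⟨hbr _ hW _ hZV.1, ?_, fun j hj => ?_, fun s hs => ?_⟩
      · show SpLie (J i) (W.1 i * Z.1.1 i - Z.1.1 i * W.1 i)
        rw [h1]
        exact br_sp hY hZV.2.1
      · show W.1 j * Z.1.1 j - Z.1.1 j * W.1 j = 0
        rw [h2 j hj, Matrix.zero_mul, Matrix.mul_zero, sub_zero]
      · show W.2 s * Z.1.2 s - Z.1.2 s * W.2 s = 0
        rw [h3 s hs, Matrix.zero_mul, Matrix.mul_zero, sub_zero]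
    refine ⟨⟨br W Z.1, hB⟩, ?_, ?_⟩
    · show W.2 s₀ * Z.1.2 s₀ - Z.1.2 s₀ * W.2 s₀ = 0
      rw [hZq, Matrix.zero_mul, Matrix.mul_zero, sub_zero]
    · show W.1 i * Z.1.1 i - Z.1.1 i * W.1 i = Y * Z.1.1 i - Z.1.1 i * Y
      rw [h1]
  have hmem : p ⟨Z₀, hZ₀⟩ ∈ I := ⟨⟨Z₀, hZ₀⟩, hq₀, rfl⟩
  obtain ⟨Z, hZ, hZX⟩ := ideal_all (hJ i) I hI hmem hZ₀.2.1 hp₀ hX
  have hZV : Z.1 ∈ 𝔥 ∧ SpLie (J i) (Z.1.1 i) ∧ (∀ j, j ≠ i → Z.1.1 j = 0) ∧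
    ∀ s ∈ S, Z.1.2 s = 0 := Z.2
  refine ⟨Z.1, hZV.1, hZX, hZV.2.2.1, fun s hs => ?_⟩
  rcases Finset.mem_insert.1 hs with rfl | hs
  · exact hZ
  · exact hZV.2.2.2 s hs

/-- the Lie algebra of the form `J i` is an equivariant quotient of a Lie algebra of matrices of size
`d s₀` -/
def Rel (J : ∀ i, Matrix (Fin (N i)) (Fin (N i)) F) (𝔥 : Submodule F (Fam F N d))
    (𝒞 : Set (Fam F N d × Fam F N d)) (i : ι) (s₀ : ι') : Prop :=
  ∃ (𝔞 : Submodule F (Matrix (Fin (d s₀)) (Fin (d s₀)) F)) (Θ : 𝔞 →ₗ[F] spSub (J i)),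
    Function.Surjective Θ ∧ (∀ X ∈ 𝔞, ∃ Z ∈ 𝔥, Z.2 s₀ = X) ∧
    (∀ X Y : 𝔞, ∃ Z : 𝔞, Z.val = X.val * Y.val - Y.val * X.val ∧
      (Θ Z).val = (Θ X).val * (Θ Y).val - (Θ Y).val * (Θ X).val) ∧
    ∀ c ∈ 𝒞, ∀ X : 𝔞, ∃ Z : 𝔞, Z.val = c.1.2 s₀ * X.val * c.2.2 s₀ ∧
      (Θ Z).val = c.1.1 i * (Θ X).val * c.2.1 i

theorem step_rel (hJ : ∀ i, IsForm (J i)) (hbr : ∀ Z ∈ 𝔥, ∀ W ∈ 𝔥, br Z W ∈ 𝔥)
    {𝒞 : Set (Fam F N d × Fam F N d)} (hC : ∀ c ∈ 𝒞, ∀ Z ∈ 𝔥, cj c.1 c.2 Z ∈ 𝔥)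
    (hC' : ∀ c ∈ 𝒞, ∀ i X, SpLie (J i) X → SpLie (J i) (c.1.1 i * X * c.2.1 i)) {S : Finset ι'}
    (h : Lifts J 𝔥 S) {s₀ : ι'} (hs : ∀ i, ¬ Rel J 𝔥 𝒞 i s₀) : Lifts J 𝔥 (insert s₀ S) := by
  refine step hJ hbr h fun i => ?_
  by_contra hcon
  push Not at hcon
  apply hs i
  let V := part J 𝔥 S i
  have hV : ∀ c ∈ 𝒞, ∀ Z ∈ V, cj c.1 c.2 Z ∈ V := by
    rintro c hc Z ⟨h1, h2, h3, h4⟩
    refine ⟨hC c hc Z h1, hC' c hc i _ h2, fun j hj => ?_, fun s hs => ?_⟩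
    · show c.1.1 j * Z.1 j * c.2.1 j = 0
      rw [h3 j hj, Matrix.mul_zero, Matrix.zero_mul]
    · show c.1.2 s * Z.2 s * c.2.2 s = 0
      rw [h4 s hs, Matrix.mul_zero, Matrix.zero_mul]
  have hVb : ∀ Z ∈ V, ∀ W ∈ V, br Z W ∈ V := by
    rintro Z ⟨h1, h2, h3, h4⟩ W ⟨h1', h2', h3', h4'⟩
    refine ⟨hbr Z h1 W h1', br_sp h2 h2', fun j hj => ?_, fun s hs => ?_⟩
    · show Z.1 j * W.1 j - W.1 j * Z.1 j = 0
      rw [h3 j hj, Matrix.zero_mul, Matrix.mul_zero, sub_zero]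
    · show Z.2 s * W.2 s - W.2 s * Z.2 s = 0
      rw [h4 s hs, Matrix.zero_mul, Matrix.mul_zero, sub_zero]
  let p : V →ₗ[F] spSub (J i) :=
    { toFun := fun Z => ⟨Z.1.1 i, Z.2.2.1⟩
      map_add' := fun Z W => rfl
      map_smul' := fun c Z => rfl }
  let q : V →ₗ[F] Matrix (Fin (d s₀)) (Fin (d s₀)) F :=
    { toFun := fun Z => Z.1.2 s₀
      map_add' := fun Z W => rfl
      map_smul' := fun c Z => rfl }
  have hk : LinearMap.ker q ≤ LinearMap.ker p := fun Z hZ => Subtype.ext (hcon Z.1 Z.2 hZ)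
  let Θ : LinearMap.range q →ₗ[F] spSub (J i) :=
    ((LinearMap.ker q).liftQ p hk).comp q.quotKerEquivRange.symm.toLinearMap
  have hΘ : ∀ Z : V, Θ ⟨q Z, LinearMap.mem_range_self q Z⟩ = p Z := by
    intro Z
    have h1 : q.quotKerEquivRange.symm ⟨q Z, LinearMap.mem_range_self q Z⟩ =
        (LinearMap.ker q).mkQ Z := by
      rw [LinearEquiv.symm_apply_eq]
      rfl
    show (LinearMap.ker q).liftQ p hk (q.quotKerEquivRange.symm ⟨q Z, _⟩) = p Z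
    rw [h1]
    rfl
  refine ⟨LinearMap.range q, Θ, fun Y => ?_, ?_, ?_, ?_⟩
  · obtain ⟨Z, hZ, h1, h2, h3⟩ := h i Y.1 Y.2
    have hZV : Z ∈ V := ⟨hZ, by rw [h1]; exact Y.2, h2, h3⟩
    exact ⟨⟨q ⟨Z, hZV⟩, LinearMap.mem_range_self q _⟩, (hΘ _).trans (Subtype.ext h1)⟩
  · rintro _ ⟨Z, rfl⟩
    exact ⟨Z.1, Z.2.1, rfl⟩
  · rintro ⟨_, Z, rfl⟩ ⟨_, W, rfl⟩
    refine ⟨⟨q ⟨br Z.1 W.1, hVb _ Z.2 _ W.2⟩, LinearMap.mem_range_self q _⟩, rfl, ?_⟩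
    rw [hΘ, hΘ, hΘ]
    rfl
  · rintro c hc ⟨_, Z, rfl⟩
    refine ⟨⟨q ⟨cj c.1 c.2 Z.1, hV c hc _ Z.2⟩, LinearMap.mem_range_self q _⟩, rfl, ?_⟩
    rw [hΘ, hΘ]
    rfl

/-- **Unrelated and commutative parts split off.** -/
theorem splits_rel (hJ : ∀ i, IsForm (J i)) (hbr : ∀ Z ∈ 𝔥, ∀ W ∈ 𝔥, br Z W ∈ 𝔥)
    {𝒞 : Set (Fam F N d × Fam F N d)} (hC : ∀ c ∈ 𝒞, ∀ Z ∈ 𝔥, cj c.1 c.2 Z ∈ 𝔥)
    (hC' : ∀ c ∈ 𝒞, ∀ i X, SpLie (J i) X → SpLie (J i) (c.1.1 i * X * c.2.1 i))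
    (h0 : Lifts J 𝔥 ∅)
    (hs : ∀ s, (∀ i, ¬ Rel J 𝔥 𝒞 i s) ∨ ∀ Z ∈ 𝔥, ∀ W ∈ 𝔥, Z.2 s * W.2 s = W.2 s * Z.2 s)
    {X : ∀ i, Matrix (Fin (N i)) (Fin (N i)) F} (hX : ∀ i, SpLie (J i) (X i)) :
    ((X, 0) : Fam F N d) ∈ 𝔥 := by
  have hall : ∀ S : Finset ι', Lifts J 𝔥 S := by
    intro S
    induction S using Finset.induction_on with
    | empty => exact h0
    | insert s S _ ih =>
      rcases hs s with h | h
      · exact step_rel hJ hbr hC hC' ih h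
      · exact step_comm hJ hbr ih h
  have h1 : ∀ i, ((Pi.single i (X i), 0) : Fam F N d) ∈ 𝔥 := by
    intro i
    obtain ⟨Z, hZ, h2, h3, h4⟩ := hall Finset.univ i (X i) (hX i)
    have h5 : ((Pi.single i (X i), 0) : Fam F N d) = Z := by
      refine Prod.ext ?_ ?_
      · funext j
        by_cases hj : j = i
        · subst hj
          show (Pi.single j (X j) : ∀ i, Matrix (Fin (N i)) (Fin (N i)) F) j = Z.1 j
          rw [Pi.single_eq_same, h2]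
        · show (Pi.single i (X i) : ∀ i, Matrix (Fin (N i)) (Fin (N i)) F) j = Z.1 j
          rw [Pi.single_eq_of_ne hj, h3 j hj]
      · funext s
        exact (h4 s (Finset.mem_univ s)).symm
    rw [h5]
    exact hZ
  have h2 : ((X, 0) : Fam F N d) = ∑ i, ((Pi.single i (X i), 0) : Fam F N d) := by
    refine Prod.ext ?_ ?_
    · rw [Prod.fst_sum]
      funext j
      rw [Finset.sum_apply, Finset.sum_eq_single j]
      · show X j = (Pi.single j (X j) : ∀ i, Matrix (Fin (N i)) (Fin (N i)) F) j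
        rw [Pi.single_eq_same]
      · intro i _ hi
        show (Pi.single i (X i) : ∀ i, Matrix (Fin (N i)) (Fin (N i)) F) j = 0
        rw [Pi.single_eq_of_ne (Ne.symm hi)]
      · intro hj
        exact absurd (Finset.mem_univ j) hj
    · rw [Prod.snd_sum]
      exact (Finset.sum_eq_zero fun _ _ => rfl).symm
  rw [h2]
  exact 𝔥.sum_mem fun i _ => h1 i

end split

section tan
variable {ℓ : ℕ} [hℓ : Fact ℓ.Prime] {ι ι' : Type} [Fintype ι] [DecidableEq ι] [Fintype ι']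
  [DecidableEq ι'] {N : ι → ℕ} {d : ι' → ℕ}
  {G : Type} [Group G] [TopologicalSpace G] [IsTopologicalGroup G] [CompactSpace G]
  {ρ : ∀ i, G →* Matrix (Fin (N i)) (Fin (N i)) ℚ_[ℓ]}
  {α : ∀ s, G →* Matrix (Fin (d s)) (Fin (d s)) ℚ_[ℓ]}

theorem conj_tendsto {n : ℕ} {r : G →* Matrix (Fin n) (Fin n) ℚ_[ℓ]} {σ : ℕ → G}
    {X : Matrix (Fin n) (Fin n) ℚ_[ℓ]}
    (h : Tendsto (fun k : ℕ => ((ℓ : ℚ_[ℓ]) ^ k)⁻¹ • (r (σ k) - 1)) atTop (𝓝 X)) (τ : G) :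
    Tendsto (fun k : ℕ => ((ℓ : ℚ_[ℓ]) ^ k)⁻¹ • (r (τ * σ k * τ⁻¹) - 1)) atTop
      (𝓝 (r τ * X * r τ⁻¹)) := by
  have h1 : Continuous fun Y : Matrix (Fin n) (Fin n) ℚ_[ℓ] => r τ * Y * r τ⁻¹ :=
    (continuous_const.matrix_mul continuous_id).matrix_mul continuous_const
  refine ((h1.tendsto X).comp h).congr fun k => ?_
  show r τ * (((ℓ : ℚ_[ℓ]) ^ k)⁻¹ • (r (σ k) - 1)) * r τ⁻¹ = _
  rw [Matrix.mul_smul, Matrix.smul_mul, mul_sub, sub_mul, mul_one, ← map_mul, ← map_mul, ← map_mul,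
    mul_inv_cancel, map_one]

/-- conjugation preserves the joint tangent vectors -/
theorem tan2_conj {Z : Fam ℚ_[ℓ] N d} (h : Tan2 ρ α Z) (τ : G) :
    Tan2 ρ α (cj ((fun i => ρ i τ), fun s => α s τ) ((fun i => ρ i τ⁻¹), fun s => α s τ⁻¹) Z) := by
  obtain ⟨σ, h1, h2⟩ := h
  exact ⟨fun k => τ * σ k * τ⁻¹, fun i => conj_tendsto (h1 i) τ, fun s => conj_tendsto (h2 s) τ⟩

/-- The Lie algebra of the form is a quotient of a Lie algebra of tangent vectors of `α`, compatibly with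
the action of the group. -/
def Related {N n : ℕ} (J : Matrix (Fin N) (Fin N) ℚ_[ℓ]) (ρ : G →* Matrix (Fin N) (Fin N) ℚ_[ℓ])
    (α : G →* Matrix (Fin n) (Fin n) ℚ_[ℓ]) : Prop :=
  ∃ (𝔞 : Submodule ℚ_[ℓ] (Matrix (Fin n) (Fin n) ℚ_[ℓ])) (Θ : 𝔞 →ₗ[ℚ_[ℓ]] spSub J),
    Function.Surjective Θ ∧ (∀ X ∈ 𝔞, IsTangent ℓ α X) ∧
    (∀ X Y : 𝔞, ∃ Z : 𝔞, Z.val = X.val * Y.val - Y.val * X.val ∧
      (Θ Z).val = (Θ X).val * (Θ Y).val - (Θ Y).val * (Θ X).val) ∧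
    ∀ (σ : G) (X : 𝔞), ∃ Z : 𝔞, Z.val = α σ * X.val * α σ⁻¹ ∧
      (Θ Z).val = ρ σ * (Θ X).val * ρ σ⁻¹

/-- the condition on an additional representation -/
def Weak' (J : ∀ i, Matrix (Fin (N i)) (Fin (N i)) ℚ_[ℓ])
    (ρ : ∀ i, G →* Matrix (Fin (N i)) (Fin (N i)) ℚ_[ℓ]) {n : ℕ}
    (α : G →* Matrix (Fin n) (Fin n) ℚ_[ℓ]) : Prop :=
  (∀ i, ¬ Related (J i) (ρ i) α) ∨
    ∃ U : Subgroup G, IsOpen (U : Set G) ∧ ∀ σ ∈ U, ∀ τ ∈ U, α σ * α τ = α τ * α σ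

/-- similitudes normalize the Lie algebra of the form -/
theorem sp_conj {N : ℕ} {J g g' X : Matrix (Fin N) (Fin N) ℚ_[ℓ]} {c c' : ℚ_[ℓ]} (hg : Sim J g c)
    (hg' : Sim J g' c') (h : g * g' = 1) (hX : SpLie J X) : SpLie J (g * X * g') := by
  have h1 : gᵀ * J * g = c • J := hg
  have h2 : g'ᵀ * J * g' = c' • J := hg'
  have hX' : Xᵀ * J + J * X = 0 := hX
  have h' : g' * g = 1 := mul_eq_one_comm.1 h
  have ht : g'ᵀ * gᵀ = 1 := by rw [← transpose_mul, h, transpose_one]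
  show (g * X * g')ᵀ * J + J * (g * X * g') = 0
  have h3 : gᵀ * J = c • (J * g') := by
    rw [← Matrix.smul_mul, ← h1, Matrix.mul_assoc (gᵀ * J), h, Matrix.mul_one]
  have h4 : J * g = c • (g'ᵀ * J) := by
    rw [← Matrix.mul_smul, ← h1, ← Matrix.mul_assoc, ← Matrix.mul_assoc, ht, Matrix.one_mul]
  rw [transpose_mul, transpose_mul, Matrix.mul_assoc g'ᵀ, Matrix.mul_assoc Xᵀ, h3,
    ← Matrix.mul_assoc J, ← Matrix.mul_assoc J, h4, Matrix.mul_smul, Matrix.mul_smul,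
    Matrix.smul_mul, Matrix.smul_mul, ← smul_add, ← Matrix.mul_assoc Xᵀ, ← Matrix.mul_assoc g'ᵀ,
    Matrix.mul_assoc g'ᵀ J, ← Matrix.add_mul, ← Matrix.mul_add, hX', Matrix.mul_zero,
    Matrix.zero_mul, smul_zero]

/-- **If the joint Lie algebra of the first family is full then unrelated and potentially commutative
representations are independent of it.** -/
theorem indep' {J : ∀ i, Matrix (Fin (N i)) (Fin (N i)) ℚ_[ℓ]} (hJ : ∀ i, IsForm (J i))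
    (hρ : ∀ i, Continuous (ρ i)) (hsim : ∀ i g, ∃ c, Sim (J i) (ρ i g) c) (hα : ∀ s, Continuous (α s))
    (hfull : ∀ X, (∀ i, SpLie (J i) (X i)) → JTan ℓ ρ X) (hw : ∀ s, Weak' J ρ (α s))
    {X : ∀ i, Matrix (Fin (N i)) (Fin (N i)) ℚ_[ℓ]} (hX : ∀ i, SpLie (J i) (X i)) :
    Tan2 ρ α (X, 0) := by
  let M : ι ⊕ ι' → ℕ := Sum.elim N d
  let R : ∀ x : ι ⊕ ι', G →* Matrix (Fin (M x)) (Fin (M x)) ℚ_[ℓ] := fun x =>
    match x with
    | Sum.inl i => ρ i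
    | Sum.inr s => α s
  obtain ⟨𝔤, h𝔤, hbr, -⟩ := jlie ℓ (ι ⊕ ι') M G R
  -- the transported Lie algebra
  let Φ : Fam ℚ_[ℓ] N d →ₗ[ℚ_[ℓ]] (∀ x : ι ⊕ ι', Matrix (Fin (M x)) (Fin (M x)) ℚ_[ℓ]) :=
    { toFun := fun Z x => match x with
        | Sum.inl i => Z.1 i
        | Sum.inr s => Z.2 s
      map_add' := by
        intro Z W
        funext x
        cases x <;> rfl
      map_smul' := by
        intro c Z
        funext x
        cases x <;> rfl }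
  let 𝔥 : Submodule ℚ_[ℓ] (Fam ℚ_[ℓ] N d) := 𝔤.comap Φ
  have h𝔥 : ∀ Z : Fam ℚ_[ℓ] N d, Z ∈ 𝔥 ↔ Tan2 ρ α Z := by
    intro Z
    show Φ Z ∈ 𝔤 ↔ _
    rw [h𝔤]
    constructor
    · rintro ⟨σ, hσ⟩
      exact ⟨σ, fun i => hσ (Sum.inl i), fun s => hσ (Sum.inr s)⟩
    · rintro ⟨σ, h1, h2⟩
      refine ⟨σ, fun x => ?_⟩
      cases x with
      | inl i => exact h1 i
      | inr s => exact h2 s
  have hbr' : ∀ Z ∈ 𝔥, ∀ W ∈ 𝔥, br Z W ∈ 𝔥 := by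
    intro Z hZ W hW
    have h1 := hbr (Φ Z) hZ (Φ W) hW
    show Φ (br Z W) ∈ 𝔤
    have h2 : Φ (br Z W) = fun x => Φ Z x * Φ W x - Φ W x * Φ Z x := by
      funext x
      cases x <;> rfl
    rw [h2]
    exact h1
  have h0 : Lifts J 𝔥 ∅ := by
    intro i Y hY
    have h1 : ∀ j, SpLie (J j) ((Pi.single i Y : ∀ i, Matrix (Fin (N i)) (Fin (N i)) ℚ_[ℓ]) j) := by
      intro j
      by_cases hj : j = i
      · subst hj
        rw [Pi.single_eq_same]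
        exact hY
      · rw [Pi.single_eq_of_ne hj]
        exact (spSub (J j)).zero_mem
    obtain ⟨Z, hZ⟩ := lift hρ hα (hfull _ h1)
    refine ⟨_, (h𝔥 _).2 hZ, ?_, fun j hj => ?_, fun s hs => absurd hs (Finset.notMem_empty s)⟩
    · show (Pi.single i Y : ∀ i, Matrix (Fin (N i)) (Fin (N i)) ℚ_[ℓ]) i = Y
      rw [Pi.single_eq_same]
    · show (Pi.single i Y : ∀ i, Matrix (Fin (N i)) (Fin (N i)) ℚ_[ℓ]) j = 0
      rw [Pi.single_eq_of_ne hj]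
  refine (h𝔥 _).1 (splits_rel hJ hbr' (𝒞 := Set.range fun τ : G =>
    (((fun i => ρ i τ), fun s => α s τ), ((fun i => ρ i τ⁻¹), fun s => α s τ⁻¹))) ?_ ?_ h0
    (fun s => ?_) hX)
  · rintro _ ⟨τ, rfl⟩ Z hZ
    rw [h𝔥] at hZ ⊢
    exact tan2_conj hZ τ
  · rintro _ ⟨τ, rfl⟩ i X hX
    obtain ⟨c, hc⟩ := hsim i τ
    obtain ⟨c', hc'⟩ := hsim i τ⁻¹
    exact sp_conj hc hc' (by rw [← map_mul, mul_inv_cancel, map_one]) hX
  rcases hw s with h | ⟨U, hU, hc⟩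
  · left
    rintro i ⟨𝔞, Θ, h1, h2, h3, h4⟩
    refine h i ⟨𝔞, Θ, h1, fun X hX => ?_, h3, fun σ => h4 _ ⟨σ, rfl⟩⟩
    obtain ⟨Z, hZ, hZX⟩ := h2 X hX
    obtain ⟨σ, -, hσ⟩ := (h𝔥 Z).1 hZ
    exact ⟨σ, hZX ▸ hσ s⟩
  · right
    intro Z hZ W hW
    obtain ⟨σ, -, hσ⟩ := (h𝔥 Z).1 hZ
    obtain ⟨τ, -, hτ⟩ := (h𝔥 W).1 hW
    exact tan_comm (hα s) hU hc ⟨σ, hσ s⟩ ⟨τ, hτ s⟩

/-- **the criterion**: for a related representation the characteristic polynomial of every element of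
the group on the Lie algebra of the form divides the one on the algebra of the matrices -/
theorem related_dvd {N n : ℕ} {J : Matrix (Fin N) (Fin N) ℚ_[ℓ]}
    {ρ : G →* Matrix (Fin N) (Fin N) ℚ_[ℓ]} {α : G →* Matrix (Fin n) (Fin n) ℚ_[ℓ]}
    (h : Related J ρ α) (σ : G) (f : Module.End ℚ_[ℓ] (spSub J))
    (g : Module.End ℚ_[ℓ] (Matrix (Fin n) (Fin n) ℚ_[ℓ]))
    (hf : ∀ X, (f X).val = ρ σ * X.val * ρ σ⁻¹) (hg : ∀ Y, g Y = α σ * Y * α σ⁻¹) :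
    LinearMap.charpoly f ∣ LinearMap.charpoly g := by
  obtain ⟨𝔞, Θ, h1, -, -, h4⟩ := h
  have h5 : ∀ X ∈ 𝔞, g X ∈ 𝔞 := by
    intro X hX
    obtain ⟨Z, hZ, -⟩ := h4 σ ⟨X, hX⟩
    rw [hg, ← hZ]
    exact Z.2
  refine dvd_of_corr Θ h1 𝔞.subtype ?_ (g.restrict h5) f g (fun X => ?_) fun X => rfl
  · rw [Submodule.ker_subtype]
    exact bot_le
  · obtain ⟨Z, hZ, hZ'⟩ := h4 σ X
    have h6 : (g.restrict h5) X = Z := by
      apply Subtype.ext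
      rw [hZ]
      exact hg X.1
    rw [h6]
    apply Subtype.ext
    rw [hZ', hf]

/-- the Lie algebra of the form of a related representation has dimension at most `n ^ 2` -/
theorem related_le {N n : ℕ} {J : Matrix (Fin N) (Fin N) ℚ_[ℓ]}
    {ρ : G →* Matrix (Fin N) (Fin N) ℚ_[ℓ]} {α : G →* Matrix (Fin n) (Fin n) ℚ_[ℓ]}
    (h : Related J ρ α) : Module.finrank ℚ_[ℓ] (spSub J) ≤ n ^ 2 := by
  have hdvd := related_dvd h 1 1 1 (fun X => by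
    rw [inv_one, map_one, one_mul, mul_one]
    rfl) (fun Y => by
    rw [inv_one, map_one, one_mul, mul_one]
    rfl)
  have h1 := Polynomial.natDegree_le_of_dvd hdvd (LinearMap.charpoly_monic _).ne_zero
  rwa [LinearMap.charpoly_natDegree, LinearMap.charpoly_natDegree, Module.finrank_matrix,
    Fintype.card_fin, Module.finrank_self, mul_one, ← sq] at h1

end tan

end Pool.Agent.U190.JT
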